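import Mathlib

/-!
# The algebra of the gadget

Reed–Solomon fibres: `ev P x = ∑ i, P i * x ^ i`.
-/

namespace Pool.Agent.SymCirc

variable {F : Type} [Field F] {ι : Type} {c : ℕ}

/-- evaluation of the polynomial with coefficients `P` -/
def ev (P : Fin c → F) (x : F) : F := ∑ i : Fin c, P i * x ^ (i : ℕ)

lemma ev_add (P Q : Fin c → F) (x : F) : ev (P + Q) x = ev P x + ev Q x := by
  unfold ev
  rw [← Finset.sum_add_distrib]
  apply Finset.sum_congr rfl
  intro i _
  rw [Pi.add_apply, add_mul]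

lemma ev_zero (x : F) : ev (0 : Fin c → F) x = 0 := by
  unfold ev; simp

/-- interpolation -/
lemma exists_ev (α : ι → F) (S : Finset ι) (hα : Set.InjOn α S) (hS : S.card ≤ c)
    (f : ι → F) : ∃ P : Fin c → F, ∀ w ∈ S, ev P (α w) = f w := by
  classical
  let p := Lagrange.interpolate S α f
  refine ⟨fun i => p.coeff i, fun w hw => ?_⟩
  have h1 : p.eval (α w) = f w := Lagrange.eval_interpolate_at_node f hα hw
  have h2 : p.degree < c :=
    lt_of_lt_of_le (Lagrange.degree_interpolate_lt f hα) (by exact_mod_cast hS)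
  rw [← h1]
  by_cases hc : c = 0
  · subst hc
    have : p = 0 := by
      have h3 : p.degree < 0 := by simpa using h2
      exact Polynomial.degree_lt_iff_coeff_zero p 0 |>.1 (by simpa using h3) |> fun h => by
        ext n; simpa using h n (Nat.zero_le n)
    unfold ev
    simp [this]
  · have h3 : p.natDegree < c := by
      by_cases hp : p = 0
      · rw [hp, Polynomial.natDegree_zero]; omega
      · exact (Polynomial.natDegree_lt_iff_degree_lt hp).2 h2
    rw [Polynomial.eval_eq_sum_range' h3]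
    unfold ev
    rw [Finset.sum_range]

/-- weights extracting the top coefficient -/
lemma exists_weights (α : ι → F) (U : Finset ι) (hα : Set.InjOn α U) {N : ℕ}
    (hU : U.card = N + 1) : ∃ ω : ι → F, ∀ j ≤ N, ∑ v ∈ U, ω v * α v ^ j =
      if j = N then 1 else 0 := by
  classical
  refine ⟨fun v => (Lagrange.basis U α v).coeff N, fun j hj => ?_⟩
  have h1 : (Polynomial.X ^ j : Polynomial F) = Lagrange.interpolate U α
      (fun v => (Polynomial.X ^ j : Polynomial F).eval (α v)) := by
    apply Lagrange.eq_interpolate hα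
    rw [Polynomial.degree_X_pow, hU]
    exact_mod_cast Nat.lt_succ_of_le hj
  have h2 := congrArg (fun q => Polynomial.coeff q N) h1
  simp only [Lagrange.interpolate_apply, Polynomial.finsetSum_coeff, Polynomial.coeff_C_mul,
    Polynomial.eval_pow, Polynomial.eval_X, Polynomial.coeff_X_pow] at h2
  rw [show (if j = N then (1 : F) else 0) = if N = j then 1 else 0 by
    simp only [eq_comm]]
  rw [h2]
  apply Finset.sum_congr rfl
  intro v _
  ring

/-- The twisted system has no solution on `c + 2` fibres. -/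
lemma no_solution (h2 : (2 : F) ≠ 0) (α : ι → F) (U : Finset ι) (hα : Set.InjOn α U)
    (hU : U.card = c + 2) (P : ι → Fin c → F)
    (hP : ∀ v ∈ U, ∀ w ∈ U, v ≠ w → ev (P v) (α w) - ev (P w) (α v) =
      (α v * α w) ^ c * (α v - α w)) : False := by
  obtain ⟨ω, hω⟩ := exists_weights α U hα (N := c + 1) hU
  have hS : ∀ j ≤ c, ∑ v ∈ U, ω v * α v ^ j = 0 := by
    intro j hj
    rw [hω j (by omega), if_neg (by omega)]
  have hT : ∑ v ∈ U, ω v * α v ^ (c + 1) = 1 := by
    rw [hω (c + 1) le_rfl, if_pos rfl]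
  -- `∑_w ω_w (α_w - x) ev P (α_w) = 0`
  have hkill : ∀ (Q : Fin c → F) (x : F),
      ∑ w ∈ U, ω w * ((α w - x) * ev Q (α w)) = 0 := by
    intro Q x
    have : ∀ w ∈ U, ω w * ((α w - x) * ev Q (α w)) =
        ∑ i : Fin c, Q i * (ω w * α w ^ ((i : ℕ) + 1) - x * (ω w * α w ^ (i : ℕ))) := by
      intro w _
      unfold ev
      rw [Finset.mul_sum, Finset.mul_sum]
      apply Finset.sum_congr rfl
      intro i _
      ring
    rw [Finset.sum_congr rfl this, Finset.sum_comm]
    apply Finset.sum_eq_zero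
    intro i _
    rw [← Finset.mul_sum, Finset.sum_sub_distrib, ← Finset.mul_sum,
      hS _ (by have := i.2; omega), hS _ (by have := i.2; omega)]
    ring
  -- the double sum
  have hA : ∑ v ∈ U, ∑ w ∈ U, ω v * (ω w * ((α w - α v) * ev (P v) (α w))) = 0 := by
    apply Finset.sum_eq_zero
    intro v _
    rw [← Finset.mul_sum, hkill, mul_zero]
  have hB : ∑ v ∈ U, ∑ w ∈ U, ω v * (ω w * ((α v - α w) * ev (P w) (α v))) = 0 := by
    rw [Finset.sum_comm]
    apply Finset.sum_eq_zero
    intro w _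
    have : ∀ v ∈ U, ω v * (ω w * ((α v - α w) * ev (P w) (α v))) =
        ω w * (ω v * ((α v - α w) * ev (P w) (α v))) := by
      intro v _; ring
    rw [Finset.sum_congr rfl this, ← Finset.mul_sum, hkill, mul_zero]
  have hC : ∑ v ∈ U, ∑ w ∈ U, ω v * (ω w * ((α w - α v) * ev (P v) (α w))) +
      ∑ v ∈ U, ∑ w ∈ U, ω v * (ω w * ((α v - α w) * ev (P w) (α v))) =
      ∑ v ∈ U, ∑ w ∈ U, (2 * ((ω v * α v ^ (c + 1)) * (ω w * α w ^ (c + 1))) -
        (ω v * α v ^ (c + 2)) * (ω w * α w ^ c) - (ω v * α v ^ c) * (ω w * α w ^ (c + 2))) := by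
    rw [← Finset.sum_add_distrib]
    apply Finset.sum_congr rfl
    intro v hv
    rw [← Finset.sum_add_distrib]
    apply Finset.sum_congr rfl
    intro w hw
    by_cases hvw : v = w
    · subst hvw; ring
    · have h := hP v hv w hw hvw
      have h' : ω v * (ω w * ((α w - α v) * ev (P v) (α w))) +
          ω v * (ω w * ((α v - α w) * ev (P w) (α v))) =
          ω v * ω w * ((α w - α v) * (ev (P v) (α w) - ev (P w) (α v))) := by ring
      rw [h', h, mul_pow]
      ring
  rw [hA, hB, add_zero] at hC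
  have hD : ∑ v ∈ U, ∑ w ∈ U, (2 * ((ω v * α v ^ (c + 1)) * (ω w * α w ^ (c + 1))) -
        (ω v * α v ^ (c + 2)) * (ω w * α w ^ c) -
        (ω v * α v ^ c) * (ω w * α w ^ (c + 2))) = 2 := by
    have : ∀ v ∈ U, ∑ w ∈ U, (2 * ((ω v * α v ^ (c + 1)) * (ω w * α w ^ (c + 1))) -
        (ω v * α v ^ (c + 2)) * (ω w * α w ^ c) -
        (ω v * α v ^ c) * (ω w * α w ^ (c + 2))) =
        2 * (ω v * α v ^ (c + 1)) -
        (ω v * α v ^ c) * ∑ w ∈ U, (ω w * α w ^ (c + 2)) := by
      intro v _
      rw [Finset.sum_sub_distrib, Finset.sum_sub_distrib, ← Finset.mul_sum, ← Finset.mul_sum,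
        ← Finset.mul_sum, ← Finset.mul_sum, hS c le_rfl, hT]
      ring
    rw [Finset.sum_congr rfl this, Finset.sum_sub_distrib, ← Finset.mul_sum, hT,
      ← Finset.sum_mul, hS c le_rfl]
    ring
  rw [hD] at hC
  exact h2 hC.symm

end Pool.Agent.SymCirc
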