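import Mathlib

/-!
# Symmetric circuits on graphs

Circuits whose gates compute arbitrary symmetric Boolean functions of their inputs and whose
input variables are the potential edges of a graph on the vertex set `V`.
-/

namespace Pool.Agent.SymCirc

/-- A circuit with gates `Γ` over the variables `x_e`, `e` an unordered pair of vertices.
Gate `g` has `inVar g e` wires from the variable `x_e` and `inGate g h` wires from gate `h`
(any multiplicities are allowed) and outputs `op g t`, where `t` is the number of its wires that
carry the value `true`; `op g` is an arbitrary function, so `g` can be any symmetric Boolean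
function of its inputs, for instance AND, OR, NOT, a threshold or a parity.
The function `rank` makes the circuit acyclic. -/
structure Circuit (V : Type) [Fintype V] (Γ : Type) [Fintype Γ] where
  inVar : Γ → Sym2 V → ℕ
  inGate : Γ → Γ → ℕ
  op : Γ → ℕ → Bool
  rank : Γ → ℕ
  acyclic : ∀ {g h : Γ}, inGate g h ≠ 0 → rank h < rank g
  out : Γ

section
variable {V : Type} [Fintype V] [DecidableEq V] {Γ : Type} [Fintype Γ]

/-- The value of a gate when the variables have the values `x`. -/
def Circuit.val (C : Circuit V Γ) (x : Sym2 V → Bool) (g : Γ) : Bool :=
  C.op g ((∑ e : Sym2 V, C.inVar g e * (x e).toNat) +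
    ∑ h : Γ, if _hw : C.inGate g h ≠ 0 then C.inGate g h * (C.val x h).toNat else 0)
termination_by C.rank g
decreasing_by exact C.acyclic _hw

open Classical in
/-- The output of the circuit on the graph `G`: variable `x_e` tells whether `e` is an edge. -/
noncomputable def Circuit.output (C : Circuit V Γ) (G : SimpleGraph V) : Bool :=
  C.val (fun e => decide (e ∈ G.edgeSet)) C.out

/-- The permutation `τ` of the gates is an automorphism of the circuit inducing the permutation
`π` of the vertices. -/
structure Circuit.IsAut (C : Circuit V Γ) (π : Equiv.Perm V) (τ : Equiv.Perm Γ) : Prop where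
  op_eq : ∀ g, C.op (τ g) = C.op g
  var_eq : ∀ g e, C.inVar (τ g) (e.map π) = C.inVar g e
  gate_eq : ∀ g h, C.inGate (τ g) (τ h) = C.inGate g h
  out_eq : τ C.out = C.out

/-- The circuit is symmetric: every permutation of the vertices is induced by an automorphism
of the circuit. -/
def Circuit.Symmetric (C : Circuit V Γ) : Prop :=
  ∀ π : Equiv.Perm V, ∃ τ : Equiv.Perm Γ, C.IsAut π τ

/-- The number of symmetries of the circuit: the permutations of the vertices that are induced by
an automorphism of the circuit.  It is `|V|!` exactly for symmetric circuits. -/
noncomputable def Circuit.numSym (C : Circuit V Γ) : ℕ :=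
  Nat.card {π : Equiv.Perm V // ∃ τ : Equiv.Perm Γ, C.IsAut π τ}

end

/-- There is a probability distribution (weights `w i`) on a finite family of circuits `C i` on
`n` vertices that accepts every graph with a `k`-clique with probability at least `2/3` and every
graph without `u`-clique with probability at most `1/3`, such that for every circuit of the family
`size * (n! / number of symmetries) ≤ b`, where the size is the number of gates other than the
output gate (and at least `1`). -/
def HasRandomCircuit (n k u b : ℕ) : Prop :=
  ∃ (ι : Type) (_ : Fintype ι) (w : ι → ℝ) (Γ : ι → Type) (_ : ∀ i, Fintype (Γ i))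
    (C : ∀ i, Circuit (Fin n) (Γ i)),
    (∀ i, 0 ≤ w i) ∧ ∑ i, w i = 1 ∧
    (∀ i, max 1 (Fintype.card (Γ i) - 1) * n.factorial ≤ b * (C i).numSym) ∧
    (∀ G : SimpleGraph (Fin n), (∃ S : Finset (Fin n), G.IsNClique k S) →
      2 / 3 ≤ ∑ i, if (C i).output G = true then w i else 0) ∧
    (∀ G : SimpleGraph (Fin n), (¬ ∃ S : Finset (Fin n), G.IsNClique u S) →
      ∑ i, (if (C i).output G = true then w i else 0) ≤ 1 / 3)

end Pool.Agent.SymCirc
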