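import Mathlib

/-!
# Canonical supports of subgroups of small index of a symmetric group

For a subgroup `G` of `Perm α` the points `a`, `b` are related when `a = b` or some
three-cycle through `a` and `b` lies in `G`.  This is an equivalence relation and on every
class `G` contains all even permutations.
-/

namespace Pool.Agent.SymCirc

open Equiv Equiv.Perm

variable {α : Type*} [DecidableEq α]

/-- The three-cycle `a → b → c → a` (for distinct `a b c`). -/
def c3 (a b c : α) : Perm α := swap a b * swap b c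

lemma conj_c3 (π : Perm α) (a b c : α) : π * c3 a b c * π⁻¹ = c3 (π a) (π b) (π c) := by
  unfold c3
  rw [swap_apply_apply π a b, swap_apply_apply π b c]
  group

lemma c3_apply_a {a b c : α} (h1 : a ≠ b) (h2 : a ≠ c) : c3 a b c a = b := by
  unfold c3
  rw [Perm.mul_apply, swap_apply_of_ne_of_ne h1 h2, swap_apply_left]

lemma c3_apply_b {a b c : α} (h2 : a ≠ c) (h3 : b ≠ c) : c3 a b c b = c := by
  unfold c3
  rw [Perm.mul_apply, swap_apply_left, swap_apply_of_ne_of_ne h2.symm h3.symm]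

lemma c3_apply_c {a b c : α} : c3 a b c c = a := by
  unfold c3
  rw [Perm.mul_apply, swap_apply_right, swap_apply_right]

lemma c3_apply_of_ne {a b c x : α} (h1 : x ≠ a) (h2 : x ≠ b) (h3 : x ≠ c) : c3 a b c x = x := by
  unfold c3
  rw [Perm.mul_apply, swap_apply_of_ne_of_ne h2 h3, swap_apply_of_ne_of_ne h1 h2]

lemma c3_inv (a b c : α) : (c3 a b c)⁻¹ = c3 c b a := by
  unfold c3
  rw [mul_inv_rev, swap_inv, swap_inv, swap_comm b c, swap_comm a b]

/-- a permutation is determined as `c3 a b c` by its values -/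
lemma eq_c3 {π : Perm α} {a b c : α} (h1 : a ≠ b) (h2 : a ≠ c) (h3 : b ≠ c)
    (ha : π a = b) (hb : π b = c) (hc : π c = a)
    (ho : ∀ x, x ≠ a → x ≠ b → x ≠ c → π x = x) : π = c3 a b c := by
  ext x
  by_cases xa : x = a
  · subst xa; rw [ha, c3_apply_a h1 h2]
  by_cases xb : x = b
  · subst xb; rw [hb, c3_apply_b h2 h3]
  by_cases xc : x = c
  · subst xc; rw [hc, c3_apply_c]
  rw [ho x xa xb xc, c3_apply_of_ne xa xb xc]

lemma c3_rot {a b c : α} (h1 : a ≠ b) (h2 : a ≠ c) (h3 : b ≠ c) : c3 a b c = c3 b c a := by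
  symm
  apply eq_c3 h1 h2 h3
  · exact c3_apply_c
  · exact c3_apply_a h3 h1.symm
  · exact c3_apply_b h1.symm h2.symm
  · intro x ha hb hc
    exact c3_apply_of_ne hb hc ha

variable (G : Subgroup (Perm α))

/-- `a` and `b` are equal or lie on a common three-cycle of `G`. -/
def Rel (a b : α) : Prop := a = b ∨ (a ≠ b ∧ ∃ c, c ≠ a ∧ c ≠ b ∧ c3 a b c ∈ G)

variable {G}

lemma Rel.refl (a : α) : Rel G a a := Or.inl rfl

lemma Rel.symm {a b : α} (h : Rel G a b) : Rel G b a := by
  rcases h with rfl | ⟨hab, c, hca, hcb, hm⟩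
  · exact Rel.refl _
  · refine Or.inr ⟨hab.symm, c, hcb, hca, ?_⟩
    have := G.inv_mem hm
    rw [c3_inv] at this
    rw [c3_rot hcb hca hab.symm] at this
    exact this

/-- the key computation: two three-cycles of `G` sharing a point -/
lemma c3_mem_of_rel {a b c : α} (hab : a ≠ b) (hac : a ≠ c) (hbc : b ≠ c)
    (h1 : Rel G a b) (h2 : Rel G b c) : c3 a b c ∈ G := by
  rcases h1 with h1 | ⟨-, x, hxa, hxb, hx⟩
  · exact absurd h1 hab
  rcases h2 with h2 | ⟨-, y, hyb, hyc, hy⟩
  · exact absurd h2 hbc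
  by_cases hxc : x = c
  · subst hxc; exact hx
  by_cases hya : y = a
  · subst hya
    rw [c3_rot hab hac hbc]
    exact hy
  by_cases hxy : x = y
  · subst hxy
    -- conj (a b x) by (b c x) gives (a c b)
    have h := G.mul_mem (G.mul_mem hy hx) (G.inv_mem hy)
    rw [conj_c3, c3_apply_a hbc (Ne.symm hyb), c3_apply_c,
      c3_apply_of_ne hab hac (Ne.symm hya)] at h
    have h' := G.inv_mem h
    rw [c3_inv] at h'
    -- c3 b c a
    rw [c3_rot hab hac hbc]
    exact h'
  · -- conj (a b x) by (b c y) gives (a c x)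
    have h := G.mul_mem (G.mul_mem hy hx) (G.inv_mem hy)
    rw [conj_c3, c3_apply_a hbc (Ne.symm hyb), c3_apply_of_ne hab hac (Ne.symm hya),
      c3_apply_of_ne hxb hxc hxy] at h
    -- h : c3 a c x ∈ G ; conj (a b x) by (a c x) : a→c, b→b, x→a
    have h' := G.mul_mem (G.mul_mem h hx) (G.inv_mem h)
    rw [conj_c3, c3_apply_a hac (Ne.symm hxa), c3_apply_c,
      c3_apply_of_ne hab.symm hbc (Ne.symm hxb)] at h'
    have h'' := G.inv_mem h'
    rw [c3_inv] at h''
    exact h''

lemma Rel.trans {a b c : α} (h1 : Rel G a b) (h2 : Rel G b c) : Rel G a c := by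
  by_cases hab : a = b
  · subst hab; exact h2
  by_cases hbc : b = c
  · subst hbc; exact h1
  by_cases hac : a = c
  · subst hac; exact Rel.refl _
  have h := c3_mem_of_rel hab hac hbc h1 h2
  have h' := G.inv_mem h
  rw [c3_inv] at h'
  -- c3 c b a = c3 b a c = c3 a c b
  rw [c3_rot (Ne.symm hbc) (Ne.symm hac) (Ne.symm hab),
    c3_rot (Ne.symm hab) hbc hac] at h'
  exact Or.inr ⟨hac, b, Ne.symm hab, hbc, h'⟩

/-- the equivalence relation -/
def relSetoid (G : Subgroup (Perm α)) : Setoid α where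
  r := Rel G
  iseqv := ⟨Rel.refl, Rel.symm, Rel.trans⟩

/-- conjugating the group moves the relation -/
lemma Rel.conj {H : Subgroup (Perm α)} {π : Perm α} (hH : ∀ σ ∈ G, π * σ * π⁻¹ ∈ H) {a b : α}
    (h : Rel G a b) : Rel H (π a) (π b) := by
  rcases h with rfl | ⟨hab, c, hca, hcb, hm⟩
  · exact Rel.refl _
  · refine Or.inr ⟨fun e => hab (π.injective e), π c, fun e => hca (π.injective e),
      fun e => hcb (π.injective e), ?_⟩
    rw [← conj_c3]
    exact hH _ hm

lemma Rel.of_mem {π : Perm α} (hπ : π ∈ G) {a b : α} (h : Rel G a b) : Rel G (π a) (π b) :=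
  h.conj (fun _ hσ => G.mul_mem (G.mul_mem hπ hσ) (G.inv_mem hπ))

end Pool.Agent.SymCirc
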