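import Mathlib
import Pool.Agent.Lib.MP_678664_lc_h46.Group

/-!
# Subgroups of small index contain the even permutations of a big class
-/

namespace Pool.Agent.SymCirc

open Equiv Equiv.Perm

variable {α : Type*} [DecidableEq α] {G : Subgroup (Perm α)}

omit [DecidableEq α] in
lemma app_inv (f : Perm α) (x : α) : f (f⁻¹ x) = x := f.apply_symm_apply x

omit [DecidableEq α] in
lemma inv_app (f : Perm α) (x : α) : f⁻¹ (f x) = x := f.symm_apply_apply x

/-- Even permutations moving only points of one class are in `G`. -/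
lemma mem_of_fix_outside [Fintype α] (a : α) {π : Perm α} (hs : sign π = 1)
    (hfix : ∀ x, ¬ Rel G a x → π x = x) : π ∈ G := by
  classical
  let p : α → Prop := fun x => Rel G a x
  have hr : π ∈ (ofSubtype : Perm (Subtype p) →* Perm α).range := by
    rw [mem_range_ofSubtype_iff]
    intro x hx
    by_contra hc
    exact (mem_support.1 hx) (hfix x hc)
  obtain ⟨σ, rfl⟩ := hr
  rw [sign_ofSubtype] at hs
  have hσ : σ ∈ alternatingGroup (Subtype p) := mem_alternatingGroup.2 hs
  rw [← closure_three_cycles_eq_alternating] at hσ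
  have hle : Subgroup.closure {σ : Perm (Subtype p) | IsThreeCycle σ} ≤
      G.comap (ofSubtype : Perm (Subtype p) →* Perm α) := by
    rw [Subgroup.closure_le]
    intro τ hτ
    have hτ : IsThreeCycle τ := hτ
    have hne : τ.support.Nonempty := by
      rw [← Finset.card_pos, hτ.card_support]; norm_num
    obtain ⟨x, hx⟩ := hne
    have h1 := hτ.eq_swap_mul_swap_iff_mem_support.2 hx
    have h2 := hτ.nodup_iff_mem_support.2 hx
    have hab : x ≠ τ x := by grind
    have hac : x ≠ τ (τ x) := by grind
    have hbc : τ x ≠ τ (τ x) := by grind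
    have h3 : (ofSubtype : Perm (Subtype p) →* Perm α) τ =
        c3 (x : α) (τ x : α) (τ (τ x) : α) := by
      conv_lhs => rw [h1]
      rw [map_mul, ofSubtype_swap_eq, ofSubtype_swap_eq]
      rfl
    show (ofSubtype : Perm (Subtype p) →* Perm α) τ ∈ G
    rw [h3]
    apply c3_mem_of_rel
    · exact fun e => hab (Subtype.ext e)
    · exact fun e => hac (Subtype.ext e)
    · exact fun e => hbc (Subtype.ext e)
    · exact Rel.trans (Rel.symm x.2) (τ x).2
    · exact Rel.trans (Rel.symm (τ x).2) (τ (τ x)).2
  exact hle hσ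

/-- If `|B|!` exceeds the index of `G` then `G` contains a nontrivial permutation moving only
points of `B`. -/
lemma exists_supported [Fintype α] (B : Finset α) (hB : G.index < (B.card).factorial) :
    ∃ x ∈ G, x ≠ 1 ∧ ∀ y, y ∉ B → x y = y := by
  classical
  -- the map Perm B → Perm α ⧸ G is not injective
  have hfin : Fintype (Perm α ⧸ G) := Fintype.ofFinite _
  let f : Perm {x // x ∈ B} → Perm α ⧸ G := fun σ =>
    ((ofSubtype σ : Perm α) : Perm α ⧸ G)
  have hcard : Fintype.card (Perm α ⧸ G) < Fintype.card (Perm {x // x ∈ B}) := by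
    rw [Fintype.card_perm, Fintype.card_coe, ← Nat.card_eq_fintype_card]
    exact hB
  obtain ⟨σ, τ, hne, he⟩ := Fintype.exists_ne_map_eq_of_card_lt f hcard
  have hm : (ofSubtype σ : Perm α)⁻¹ * ofSubtype τ ∈ G := QuotientGroup.eq.1 he
  refine ⟨_, hm, ?_, ?_⟩
  · intro h1
    apply hne
    rw [inv_mul_eq_one] at h1
    exact ofSubtype_injective h1
  · intro y hy
    rw [← map_inv, ← map_mul]
    exact ofSubtype_apply_of_not_mem _ hy

/-- two elements of `G` whose supports meet in exactly one point yield a three-cycle -/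
lemma commutator_eq_c3 {x y : Perm α} {p : α} (hx : x p ≠ p) (hy : y p ≠ p)
    (hxy : ∀ z, z ≠ p → x z = z ∨ y z = z) :
    x * y * x⁻¹ * y⁻¹ = c3 p (x p) (y p) ∧ p ≠ x p ∧ p ≠ y p ∧ x p ≠ y p := by
  -- x p is moved by x, hence fixed by y
  have e1 : y (x p) = x p := by
    rcases hxy (x p) hx with h | h
    · exact absurd (x.injective h) hx
    · exact h
  have e2 : x (y p) = y p := by
    rcases hxy (y p) hy with h | h
    · exact h
    · exact absurd (y.injective h) hy
  have hne : x p ≠ y p := by
    intro e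
    rw [← e] at e2
    exact hx (x.injective e2)
  have f1 : y⁻¹ (x p) = x p := by
    rw [inv_eq_iff_eq]; exact e1.symm
  have f2 : x⁻¹ (y p) = y p := by
    rw [inv_eq_iff_eq]; exact e2.symm
  -- x⁻¹ p
  have g1 : y (x⁻¹ p) = x⁻¹ p := by
    have hp : x⁻¹ p ≠ p := by
      intro e; apply hx; rw [inv_eq_iff_eq] at e; exact e.symm
    rcases hxy (x⁻¹ p) hp with h | h
    · rw [app_inv] at h; exact absurd h.symm hp
    · exact h
  have g2 : x (y⁻¹ p) = y⁻¹ p := by
    have hp : y⁻¹ p ≠ p := by
      intro e; apply hy; rw [inv_eq_iff_eq] at e; exact e.symm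
    rcases hxy (y⁻¹ p) hp with h | h
    · exact h
    · rw [app_inv] at h; exact absurd h.symm hp
  refine ⟨?_, hx.symm, hy.symm, hne⟩
  apply eq_c3 hx.symm hy.symm hne
  · -- p ↦ x p
    simp only [Perm.mul_apply]
    have : x⁻¹ (y⁻¹ p) = y⁻¹ p := by rw [inv_eq_iff_eq]; exact g2.symm
    rw [this, app_inv]
  · -- x p ↦ y p
    simp only [Perm.mul_apply]
    rw [f1, inv_app, e2]
  · -- y p ↦ p
    simp only [Perm.mul_apply]
    rw [inv_app, g1, app_inv]
  · intro z hz1 hz2 hz3
    simp only [Perm.mul_apply]
    rcases hxy z hz1 with h | h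
    · -- x z = z
      have hxi : ∀ w, w ≠ p → y w ≠ w → x w = w := by
        intro w hw hyw
        rcases hxy w hw with h | h
        · exact h
        · exact absurd h hyw
      -- consider w = y⁻¹ z
      have hwp : y⁻¹ z ≠ p := by
        intro e; rw [inv_eq_iff_eq] at e; exact hz3 e
      by_cases hyz : y z = z
      · have : y⁻¹ z = z := by rw [inv_eq_iff_eq]; exact hyz.symm
        rw [this]
        have : x⁻¹ z = z := by rw [inv_eq_iff_eq]; exact h.symm
        rw [this, hyz, h]
      · have hw : y (y⁻¹ z) ≠ y⁻¹ z := by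
          rw [app_inv]
          intro e
          apply hyz
          have := congrArg y e
          rw [app_inv] at this
          exact this
        have hxw := hxi _ hwp hw
        have : x⁻¹ (y⁻¹ z) = y⁻¹ z := by rw [inv_eq_iff_eq]; exact hxw.symm
        rw [this, app_inv, h]
    · have hyi : y⁻¹ z = z := by rw [inv_eq_iff_eq]; exact h.symm
      rw [hyi]
      have hwp : x⁻¹ z ≠ p := by
        intro e; rw [inv_eq_iff_eq] at e; exact hz2 e
      by_cases hxz : x z = z
      · have : x⁻¹ z = z := by rw [inv_eq_iff_eq]; exact hxz.symm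
        rw [this, h, hxz]
      · have hw : x (x⁻¹ z) ≠ x⁻¹ z := by
          rw [app_inv]
          intro e
          apply hxz
          have := congrArg x e
          rw [app_inv] at this
          exact this
        have : y (x⁻¹ z) = x⁻¹ z := by
          rcases hxy _ hwp with h' | h'
          · exact absurd h' hw
          · exact h'
        rw [this, app_inv]

/-- The grid lemma: a set of `(2b)²` points contains a three-cycle of `G` when `b!` exceeds the
index of `G`. -/
lemma exists_c3_of_grid [Fintype α] {b : ℕ} (hb : 0 < b) (hG : G.index < b.factorial)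
    (ℓ : Fin (2 * b) × Fin (2 * b) ↪ α) :
    ∃ u v w, u ≠ v ∧ u ≠ w ∧ v ≠ w ∧ c3 (ℓ u) (ℓ v) (ℓ w) ∈ G := by
  classical
  -- row-good and column-good positions
  let rowGood : Fin (2 * b) → Fin (2 * b) → Prop := fun i j =>
    ∃ x ∈ G, x (ℓ (i, j)) ≠ ℓ (i, j) ∧ ∀ y, (∀ j', y ≠ ℓ (i, j')) → x y = y
  let colGood : Fin (2 * b) → Fin (2 * b) → Prop := fun j i =>
    ∃ x ∈ G, x (ℓ (i, j)) ≠ ℓ (i, j) ∧ ∀ y, (∀ i', y ≠ ℓ (i', j)) → x y = y
  have hrow : ∀ i, (Finset.univ.filter (fun j => ¬ rowGood i j)).card < b := by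
    intro i
    by_contra hc
    push Not at hc
    obtain ⟨T, hT, hTc⟩ := Finset.exists_subset_card_eq hc
    let B : Finset α := T.image (fun j => ℓ (i, j))
    have hBc : B.card = b := by
      rw [Finset.card_image_of_injective, hTc]
      intro j j' e
      have := ℓ.injective e
      exact (Prod.ext_iff.1 this).2
    obtain ⟨x, hxG, hx1, hxB⟩ := exists_supported (G := G) B (by rw [hBc]; exact hG)
    obtain ⟨z, hz⟩ : ∃ z, x z ≠ z := by
      by_contra hc'
      push Not at hc'
      exact hx1 (Perm.ext hc')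
    have hzB : z ∈ B := by
      by_contra h
      exact hz (hxB z h)
    obtain ⟨j, hjT, rfl⟩ := Finset.mem_image.1 hzB
    have := (Finset.mem_filter.1 (hT hjT)).2
    apply this
    refine ⟨x, hxG, hz, ?_⟩
    intro y hy
    apply hxB
    intro hyB
    obtain ⟨j', -, e⟩ := Finset.mem_image.1 hyB
    exact hy j' e.symm
  have hcol : ∀ j, (Finset.univ.filter (fun i => ¬ colGood j i)).card < b := by
    intro j
    by_contra hc
    push Not at hc
    obtain ⟨T, hT, hTc⟩ := Finset.exists_subset_card_eq hc
    let B : Finset α := T.image (fun i => ℓ (i, j))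
    have hBc : B.card = b := by
      rw [Finset.card_image_of_injective, hTc]
      intro i i' e
      have := ℓ.injective e
      exact (Prod.ext_iff.1 this).1
    obtain ⟨x, hxG, hx1, hxB⟩ := exists_supported (G := G) B (by rw [hBc]; exact hG)
    obtain ⟨z, hz⟩ : ∃ z, x z ≠ z := by
      by_contra hc'
      push Not at hc'
      exact hx1 (Perm.ext hc')
    have hzB : z ∈ B := by
      by_contra h
      exact hz (hxB z h)
    obtain ⟨i, hiT, rfl⟩ := Finset.mem_image.1 hzB
    have := (Finset.mem_filter.1 (hT hiT)).2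
    apply this
    refine ⟨x, hxG, hz, ?_⟩
    intro y hy
    apply hxB
    intro hyB
    obtain ⟨i', -, e⟩ := Finset.mem_image.1 hyB
    exact hy i' e.symm
  -- a position good for both
  obtain ⟨i, j, hri, hcj⟩ : ∃ i j, rowGood i j ∧ colGood j i := by
    by_contra hc
    push Not at hc
    -- count
    have h1 : (Finset.univ : Finset (Fin (2 * b) × Fin (2 * b))) ⊆
        (Finset.univ.filter (fun q : Fin (2 * b) × Fin (2 * b) => ¬ rowGood q.1 q.2)) ∪
        (Finset.univ.filter (fun q : Fin (2 * b) × Fin (2 * b) => ¬ colGood q.2 q.1)) := by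
      intro q _
      simp only [Finset.mem_union, Finset.mem_filter, Finset.mem_univ, true_and]
      by_cases h : rowGood q.1 q.2
      · right; exact hc _ _ h
      · left; exact h
    have h2 := (Finset.card_le_card h1).trans (Finset.card_union_le _ _)
    rw [Finset.card_univ, Fintype.card_prod, Fintype.card_fin] at h2
    have h3 : (Finset.univ.filter
        (fun q : Fin (2 * b) × Fin (2 * b) => ¬ rowGood q.1 q.2)).card < 2 * b * b := by
      have : (Finset.univ.filter
        (fun q : Fin (2 * b) × Fin (2 * b) => ¬ rowGood q.1 q.2)).card =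
          ∑ i, (Finset.univ.filter (fun j => ¬ rowGood i j)).card := by
        simp only [Finset.card_filter]
        rw [← Finset.univ_product_univ, Finset.sum_product]
      rw [this]
      calc ∑ i, (Finset.univ.filter (fun j => ¬ rowGood i j)).card
          < ∑ _i : Fin (2 * b), b := by
            apply Finset.sum_lt_sum_of_nonempty
            · exact ⟨⟨0, by omega⟩, Finset.mem_univ _⟩
            · intro i _; exact hrow i
        _ = 2 * b * b := by simp
    have h4 : (Finset.univ.filter
        (fun q : Fin (2 * b) × Fin (2 * b) => ¬ colGood q.2 q.1)).card < 2 * b * b := by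
      have : (Finset.univ.filter
        (fun q : Fin (2 * b) × Fin (2 * b) => ¬ colGood q.2 q.1)).card =
          ∑ j, (Finset.univ.filter (fun i => ¬ colGood j i)).card := by
        simp only [Finset.card_filter]
        rw [← Finset.univ_product_univ, Finset.sum_product_right]
      rw [this]
      calc ∑ j, (Finset.univ.filter (fun i => ¬ colGood j i)).card
          < ∑ _j : Fin (2 * b), b := by
            apply Finset.sum_lt_sum_of_nonempty
            · exact ⟨⟨0, by omega⟩, Finset.mem_univ _⟩
            · intro i _; exact hcol i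
        _ = 2 * b * b := by simp
    nlinarith
  obtain ⟨x, hxG, hxp, hxo⟩ := hri
  obtain ⟨y, hyG, hyp, hyo⟩ := hcj
  have hxy : ∀ z, z ≠ ℓ (i, j) → x z = z ∨ y z = z := by
    intro z hz
    by_contra hc
    push Not at hc
    obtain ⟨h1, h2⟩ := hc
    have h3 : ∃ j', z = ℓ (i, j') := by
      by_contra hc'; push Not at hc'; exact h1 (hxo z hc')
    have h4 : ∃ i', z = ℓ (i', j) := by
      by_contra hc'; push Not at hc'; exact h2 (hyo z hc')
    obtain ⟨j', e1⟩ := h3
    obtain ⟨i', e2⟩ := h4
    rw [e1] at e2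
    have := ℓ.injective e2
    have h5 := (Prod.ext_iff.1 this).2
    simp only at h5
    subst h5
    exact hz e1
  obtain ⟨hc, n1, n2, n3⟩ := commutator_eq_c3 hxp hyp hxy
  -- x p and y p are in the grid
  have h3 : ∃ j', x (ℓ (i, j)) = ℓ (i, j') := by
    by_contra hc'
    push Not at hc'
    have := hxo _ hc'
    exact hxp (x.injective this)
  have h4 : ∃ i', y (ℓ (i, j)) = ℓ (i', j) := by
    by_contra hc'
    push Not at hc'
    have := hyo _ hc'
    exact hyp (y.injective this)
  obtain ⟨j', e1⟩ := h3
  obtain ⟨i', e2⟩ := h4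
  refine ⟨(i, j), (i, j'), (i', j), ?_, ?_, ?_, ?_⟩
  · intro e; apply n1; rw [e1, ← e]
  · intro e; apply n2; rw [e2, ← e]
  · intro e; apply n3; rw [e1, e2, e]
  · rw [← e1, ← e2, ← hc]
    exact G.mul_mem (G.mul_mem (G.mul_mem hxG hyG) (G.inv_mem hxG)) (G.inv_mem hyG)

end Pool.Agent.SymCirc
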