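import Mathlib
import Pool.Agent.Lib.MP_678664_lc_h46.Support

/-!
# Subgroups of index below `C(n, r)` have a class of size above `n - r`
-/

namespace Pool.Agent.SymCirc

open Equiv Equiv.Perm

variable {α : Type*} [DecidableEq α] [Fintype α]

open Classical in
/-- the class of `a` -/
noncomputable def cls (G : Subgroup (Perm α)) (a : α) : Finset α :=
  Finset.univ.filter (fun b => Rel G a b)

lemma mem_cls {G : Subgroup (Perm α)} {a b : α} : b ∈ cls G a ↔ Rel G a b := by
  classical
  simp [cls]

lemma self_mem_cls {G : Subgroup (Perm α)} (a : α) : a ∈ cls G a := mem_cls.2 (Rel.refl a)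

lemma cls_eq_of_rel {G : Subgroup (Perm α)} {a b : α} (h : Rel G a b) : cls G a = cls G b := by
  ext x
  rw [mem_cls, mem_cls]
  exact ⟨fun h' => h.symm.trans h', fun h' => h.trans h'⟩

/-- conjugating the group moves the classes -/
lemma cls_conj {G H : Subgroup (Perm α)} {π : Perm α} (h1 : ∀ σ ∈ G, π * σ * π⁻¹ ∈ H)
    (h2 : ∀ σ ∈ H, π⁻¹ * σ * π ∈ G) (a : α) :
    cls H (π a) = (cls G a).map π.toEmbedding := by
  ext x
  rw [mem_cls, Finset.mem_map_equiv, mem_cls]
  constructor
  · intro h
    have h2' : ∀ σ ∈ H, π⁻¹ * σ * π⁻¹⁻¹ ∈ G := by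
      intro σ hσ; rw [inv_inv]; exact h2 σ hσ
    have := h.conj h2'
    rw [inv_app] at this
    exact this
  · intro h
    have := h.conj h1
    rw [Equiv.apply_symm_apply] at this
    exact this

lemma cls_of_mem {G : Subgroup (Perm α)} {π : Perm α} (hπ : π ∈ G) (a : α) :
    cls G (π a) = (cls G a).map π.toEmbedding := by
  apply cls_conj
  · intro σ hσ; exact G.mul_mem (G.mul_mem hπ hσ) (G.inv_mem hπ)
  · intro σ hσ; exact G.mul_mem (G.mul_mem (G.inv_mem hπ) hσ) hπ

/-- the number of classes -/
noncomputable def numCls (G : Subgroup (Perm α)) : ℕ := Nat.card (Quotient (relSetoid G))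

lemma numCls_lt {G : Subgroup (Perm α)} {b : ℕ} (hb : 0 < b) (hG : G.index < b.factorial) :
    numCls G < (2 * b) * (2 * b) := by
  classical
  have hfin : Fintype (Quotient (relSetoid G)) := Fintype.ofFinite _
  by_contra hc
  push Not at hc
  unfold numCls at hc
  rw [Nat.card_eq_fintype_card] at hc
  have hcard : Fintype.card (Fin (2 * b) × Fin (2 * b)) ≤
      Fintype.card (Quotient (relSetoid G)) := by
    rw [Fintype.card_prod, Fintype.card_fin]; exact hc
  obtain ⟨e⟩ := Function.Embedding.nonempty_of_card_le hcard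
  have hout : Function.Injective (Quotient.out : Quotient (relSetoid G) → α) :=
    Quotient.out_injective
  let ℓ : Fin (2 * b) × Fin (2 * b) ↪ α := e.trans ⟨Quotient.out, hout⟩
  obtain ⟨u, v, w, huv, huw, hvw, hm⟩ := exists_c3_of_grid hb hG ℓ
  have hrel : Rel G (ℓ u) (ℓ v) :=
    Or.inr ⟨fun h => huv (ℓ.injective h), ℓ w, fun h => huw (ℓ.injective h).symm,
      fun h => hvw (ℓ.injective h).symm, hm⟩
  have h1 : (Quotient.mk (relSetoid G) (ℓ u)) = Quotient.mk (relSetoid G) (ℓ v) :=
    Quotient.sound hrel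
  have h2 : e u = e v := by
    have a1 : Quotient.mk (relSetoid G) (ℓ u) = e u := Quotient.out_eq (e u)
    have a2 : Quotient.mk (relSetoid G) (ℓ v) = e v := Quotient.out_eq (e v)
    rw [← a1, ← a2, h1]
  exact huv (e.injective h2)

lemma exists_large_cls (G : Subgroup (Perm α)) {m : ℕ} (hα : 0 < Fintype.card α)
    (hm : numCls G * m ≤ Fintype.card α) : ∃ a, m ≤ (cls G a).card := by
  classical
  have hfin : Fintype (Quotient (relSetoid G)) := Fintype.ofFinite _
  have hne : Nonempty α := Fintype.card_pos_iff.1 hα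
  obtain ⟨y, -, hy⟩ := Finset.exists_le_card_fiber_of_mul_le_card_of_maps_to
    (s := (Finset.univ : Finset α)) (t := (Finset.univ : Finset (Quotient (relSetoid G))))
    (f := fun a => Quotient.mk (relSetoid G) a) (n := m) (fun _ _ => Finset.mem_univ _)
    ⟨Quotient.mk _ (Classical.choice hne), Finset.mem_univ _⟩ (by
      rw [Finset.card_univ, Finset.card_univ, ← Nat.card_eq_fintype_card]; exact hm)
  refine ⟨y.out, hy.trans (Finset.card_le_card ?_)⟩
  intro x hx
  rw [mem_cls]
  have h1 := (Finset.mem_filter.1 hx).2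
  have h2 : Quotient.mk (relSetoid G) y.out = Quotient.mk (relSetoid G) x := by
    rw [h1]; exact Quotient.out_eq y
  exact Quotient.exact h2

/-- The orbit count: `C(n, |class|)` is at most index times number of classes in the orbit. -/
lemma choose_le_index_mul (G : Subgroup (Perm α)) (a : α)
    (O : Finset (Quotient (relSetoid G)))
    (hO : ∀ g ∈ G, Quotient.mk (relSetoid G) (g a) ∈ O) :
    (Fintype.card α).choose (cls G a).card ≤ G.index * O.card := by
  classical
  have hfin : Fintype (Perm α ⧸ G) := Fintype.ofFinite _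
  -- a permutation for every set of the right size
  have hex : ∀ D : Finset α, D.card = (cls G a).card →
      ∃ σ : Perm α, (cls G a).map σ.toEmbedding = D := by
    intro D hD
    have hc : Fintype.card {x // x ∈ cls G a} = Fintype.card {x // x ∈ D} := by
      rw [Fintype.card_coe, Fintype.card_coe, hD]
    let e : {x // x ∈ cls G a} ≃ {x // x ∈ D} := Fintype.equivOfCardEq hc
    refine ⟨e.extendSubtype, ?_⟩
    apply Finset.eq_of_subset_of_card_le
    · intro x hx
      obtain ⟨y, hy, rfl⟩ := Finset.mem_map.1 hx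
      exact e.extendSubtype_mem y hy
    · rw [Finset.card_map, hD]
  choose! σ hσ using hex
  let f : {D : Finset α // D ∈ Finset.powersetCard (cls G a).card Finset.univ} →
      (Perm α ⧸ G) × {q // q ∈ O} := fun D =>
    ((σ D.1 : Perm α ⧸ G), ⟨Quotient.mk (relSetoid G)
      ((((σ D.1 : Perm α ⧸ G)).out⁻¹ * σ D.1 : Perm α) a), by
        apply hO
        have : ((((σ D.1 : Perm α ⧸ G)).out : Perm α) : Perm α ⧸ G) = (σ D.1 : Perm α ⧸ G) :=
          QuotientGroup.out_eq' _
        exact QuotientGroup.eq.1 this⟩)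
  have hf : Function.Injective f := by
    rintro ⟨D, hD⟩ ⟨D', hD'⟩ h
    have hDc := (Finset.mem_powersetCard.1 hD).2
    have hDc' := (Finset.mem_powersetCard.1 hD').2
    have h1 := (Prod.ext_iff.1 h).1
    have h2 := congrArg Subtype.val (Prod.ext_iff.1 h).2
    simp only [f] at h1 h2
    set s : Perm α := ((σ D : Perm α ⧸ G)).out with hs
    have hs' : ((σ D' : Perm α ⧸ G)).out = s := by rw [← h1]
    rw [hs'] at h2
    have g1 : s⁻¹ * σ D ∈ G := by
      have : (s : Perm α ⧸ G) = (σ D : Perm α ⧸ G) := QuotientGroup.out_eq' _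
      exact QuotientGroup.eq.1 this
    have g2 : s⁻¹ * σ D' ∈ G := by
      have : (s : Perm α ⧸ G) = (σ D' : Perm α ⧸ G) := by rw [← h1]; exact QuotientGroup.out_eq' _
      exact QuotientGroup.eq.1 this
    have hrel : Rel G ((s⁻¹ * σ D : Perm α) a) ((s⁻¹ * σ D' : Perm α) a) := Quotient.exact h2
    have hc := cls_eq_of_rel hrel
    rw [cls_of_mem g1, cls_of_mem g2] at hc
    apply Subtype.ext
    show D = D'
    rw [← hσ D hDc, ← hσ D' hDc']
    have hmap : ∀ (p q : Perm α) (T : Finset α), T.map (p * q).toEmbedding =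
        (T.map q.toEmbedding).map p.toEmbedding := by
      intro p q T
      rw [Finset.map_map]
      rfl
    have e1 : σ D = s * (s⁻¹ * σ D) := by group
    have e2 : σ D' = s * (s⁻¹ * σ D') := by group
    rw [e1, e2, hmap, hmap s, hc]
  have hcard := Fintype.card_le_of_injective f hf
  rw [Fintype.card_coe, Finset.card_powersetCard, Finset.card_univ, Fintype.card_prod,
    Fintype.card_coe, ← Nat.card_eq_fintype_card (α := Perm α ⧸ G)] at hcard
  exact hcard

end Pool.Agent.SymCirc
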