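import Mathlib
import Pool.Agent.Lib.MP_678664_lc_h46.Classes

namespace Pool.Agent.SymCirc

open Equiv Equiv.Perm

lemma choose_mono_left {n r m : ℕ} (h1 : r ≤ m) (h2 : m ≤ n / 2) : n.choose r ≤ n.choose m := by
  induction m, h1 using Nat.le_induction with
  | base => exact le_rfl
  | succ m hm ih =>
    exact (ih (by omega)).trans (Nat.choose_le_succ_of_lt_half_left (by omega))

lemma choose_mono_mid {n r m : ℕ} (h1 : r ≤ m) (h2 : m + r ≤ n) : n.choose r ≤ n.choose m := by
  by_cases h : m ≤ n / 2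
  · exact choose_mono_left h1 h
  · have h3 : n.choose m = n.choose (n - m) := (Nat.choose_symm (by omega)).symm
    rw [h3]
    exact choose_mono_left (by omega) (by omega)

lemma mul_choose_le {n r : ℕ} (hn : 4 * ((r + 1) * (r + 2)) ≤ n) :
    n * n.choose r ≤ n.choose (r + 2) := by
  have hr : 2 * r + 2 ≤ n := by nlinarith
  have e1 := Nat.choose_succ_right_eq n r
  have e2 := Nat.choose_succ_right_eq n (r + 1)
  have e2' : n.choose (r + 2) * (r + 2) = n.choose (r + 1) * (n - (r + 1)) := e2
  have key : n.choose (r + 2) * ((r + 2) * (r + 1)) = n.choose r * ((n - r) * (n - (r + 1))) := by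
    calc n.choose (r + 2) * ((r + 2) * (r + 1)) = (n.choose (r + 2) * (r + 2)) * (r + 1) := by ring
      _ = (n.choose (r + 1) * (n - (r + 1))) * (r + 1) := by rw [e2']
      _ = (n.choose (r + 1) * (r + 1)) * (n - (r + 1)) := by ring
      _ = (n.choose r * (n - r)) * (n - (r + 1)) := by rw [e1]
      _ = _ := by ring
  have hge : n * ((r + 2) * (r + 1)) ≤ (n - r) * (n - (r + 1)) := by
    obtain ⟨q, hq⟩ : ∃ q, n = q + (r + 1) := ⟨n - (r + 1), by omega⟩
    have h1 : n - r = q + 1 := by omega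
    have h2 : n - (r + 1) = q := by omega
    rw [h1, h2]
    have h3 : n ≤ 2 * q := by omega
    have h4 : 2 * ((r + 1) * (r + 2)) ≤ q := by nlinarith
    calc n * ((r + 2) * (r + 1)) ≤ (2 * q) * ((r + 2) * (r + 1)) := Nat.mul_le_mul_right _ h3
      _ = (2 * ((r + 1) * (r + 2))) * q := by ring
      _ ≤ q * q := Nat.mul_le_mul_right _ h4
      _ ≤ (q + 1) * q := Nat.mul_le_mul_right _ (by omega)
  have hpos : 0 < (r + 2) * (r + 1) := by positivity
  apply Nat.le_of_mul_le_mul_right _ hpos
  rw [key]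
  calc n * n.choose r * ((r + 2) * (r + 1)) = n.choose r * (n * ((r + 2) * (r + 1))) := by ring
    _ ≤ _ := Nat.mul_le_mul_left _ hge

lemma exists_b (r : ℕ) : ∃ n₀, ∀ n ≥ n₀, ∃ b, 0 < b ∧ n ^ r < b.factorial ∧
    (2 * b) * (2 * b) * (r + 2) ≤ n := by
  set M : ℕ := 4 * (r + 2) with hM
  set B : ℕ := 4 * r + 1 + 2 ^ (2 * r + 1) * M ^ r with hB
  refine ⟨M * (B * B), fun n hn => ?_⟩
  have hMpos : 0 < M := by omega
  set b := Nat.sqrt (n / M) with hb
  have hBb : B ≤ b := by
    rw [hb, Nat.le_sqrt, Nat.le_div_iff_mul_le hMpos]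
    linarith [mul_comm M (B * B)]
  have hb1 : b * b * M ≤ n := by
    have : b * b ≤ n / M := Nat.sqrt_le _
    calc b * b * M ≤ (n / M) * M := Nat.mul_le_mul_right _ this
      _ ≤ n := Nat.div_mul_le_self _ _
  have hb2 : n < M * ((b + 1) * (b + 1)) := by
    have h1 : n / M < (b + 1) * (b + 1) := Nat.lt_succ_sqrt _
    exact (Nat.div_lt_iff_lt_mul hMpos).1 h1 |>.trans_le (le_of_eq (mul_comm _ _))
  have hbr : 4 * r + 1 ≤ b := by omega
  have hbM : 2 ^ (2 * r + 1) * M ^ r < b + 1 := by omega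
  refine ⟨b, by omega, ?_, ?_⟩
  · have h1 : n ^ r ≤ M ^ r * (b + 1) ^ (2 * r) := by
      calc n ^ r ≤ (M * ((b + 1) * (b + 1))) ^ r := Nat.pow_le_pow_left hb2.le r
        _ = M ^ r * (b + 1) ^ (2 * r) := by rw [mul_pow, ← pow_two, ← pow_mul]
    have h2 : (b - 2 * r) ^ (2 * r + 1) ≤ b.factorial := by
      have h3 := Nat.pow_sub_le_descFactorial b (2 * r + 1)
      have h4 : b + 1 - (2 * r + 1) = b - 2 * r := by omega
      rw [h4] at h3
      refine h3.trans ?_
      exact Nat.le_of_dvd (Nat.factorial_pos _)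
        (by
          have := Nat.factorial_mul_descFactorial (n := b) (k := 2 * r + 1) (by omega)
          exact Dvd.intro_left _ this)
    have h5 : (b + 1) ^ (2 * r + 1) ≤ 2 ^ (2 * r + 1) * b.factorial := by
      calc (b + 1) ^ (2 * r + 1) ≤ (2 * (b - 2 * r)) ^ (2 * r + 1) :=
            Nat.pow_le_pow_left (by omega) _
        _ = 2 ^ (2 * r + 1) * (b - 2 * r) ^ (2 * r + 1) := by rw [mul_pow]
        _ ≤ _ := Nat.mul_le_mul_left _ h2
    have h6 : 2 ^ (2 * r + 1) * (M ^ r * (b + 1) ^ (2 * r)) < (b + 1) ^ (2 * r + 1) := by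
      calc 2 ^ (2 * r + 1) * (M ^ r * (b + 1) ^ (2 * r)) =
            (2 ^ (2 * r + 1) * M ^ r) * (b + 1) ^ (2 * r) := by ring
        _ < (b + 1) * (b + 1) ^ (2 * r) :=
            Nat.mul_lt_mul_of_pos_right hbM (by positivity)
        _ = (b + 1) ^ (2 * r + 1) := by ring
    have h7 := lt_of_lt_of_le h6 h5
    have h8 := Nat.lt_of_mul_lt_mul_left h7
    exact lt_of_le_of_lt h1 h8
  · calc (2 * b) * (2 * b) * (r + 2) = b * b * M := by rw [hM]; ring
      _ ≤ n := hb1

variable {α : Type*} [DecidableEq α] [Fintype α]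

lemma exists_big_cls (r : ℕ) (hr : 1 ≤ r) : ∃ n₀, 2 * r + 4 ≤ n₀ ∧
    ∀ {α : Type} [DecidableEq α] [Fintype α], n₀ ≤ Fintype.card α →
    ∀ G : Subgroup (Perm α), G.index < (Fintype.card α).choose r →
    ∃ a, Fintype.card α < (cls G a).card + r := by
  obtain ⟨n₁, hn₁⟩ := exists_b r
  refine ⟨max n₁ (4 * ((r + 1) * (r + 2)) + 2 * r + 4), by omega, ?_⟩
  intro α _ _ hα G hG
  classical
  set n := Fintype.card α with hn
  have hn1 : n₁ ≤ n := (le_max_left _ _).trans hα
  have hn2 : 4 * ((r + 1) * (r + 2)) + 2 * r + 4 ≤ n := (le_max_right _ _).trans hα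
  obtain ⟨b, hb0, hb1, hb2⟩ := hn₁ n hn1
  have hidx : G.index < b.factorial :=
    hG.trans_le ((Nat.choose_le_pow n r).trans hb1.le)
  have hcls := numCls_lt hb0 hidx
  obtain ⟨a, ha⟩ := exists_large_cls G (m := r + 2) (by omega)
    ((Nat.mul_le_mul_right _ hcls.le).trans hb2)
  refine ⟨a, ?_⟩
  set m := (cls G a).card with hm
  have hfin : Fintype (Quotient (relSetoid G)) := Fintype.ofFinite _
  have hmn : m ≤ n := (Finset.card_le_univ _)
  -- first bound
  have h1 := choose_le_index_mul G a Finset.univ (fun g _ => Finset.mem_univ _)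
  rw [Finset.card_univ, ← Nat.card_eq_fintype_card (α := Quotient (relSetoid G))] at h1
  have h1' : n.choose m < n.choose r * n := by
    have hclsn : Nat.card (Quotient (relSetoid G)) ≤ n := by
      have : numCls G ≤ n := hcls.le.trans
        ((Nat.le_mul_of_pos_right _ (by omega : 0 < r + 2)).trans hb2)
      exact this
    have hpos : 0 < n := by omega
    calc n.choose m ≤ G.index * Nat.card (Quotient (relSetoid G)) := h1
      _ ≤ G.index * n := Nat.mul_le_mul_left _ hclsn
      _ < n.choose r * n := Nat.mul_lt_mul_of_pos_right hG hpos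
  have h2 : n < m + (r + 2) := by
    by_contra hc
    push Not at hc
    have h3 := choose_mono_mid (n := n) (r := r + 2) (m := m) ha (by omega)
    have h4 := mul_choose_le (n := n) (r := r) (by omega)
    have : n * n.choose r ≤ n.choose m := h4.trans h3
    rw [mul_comm] at this
    omega
  -- second bound
  have h5 := choose_le_index_mul G a {Quotient.mk (relSetoid G) a} (by
    intro g hg
    rw [Finset.mem_singleton]
    apply Quotient.sound
    show Rel G (g a) a
    -- classes of g a and a are both big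
    have hc1 : (cls G (g a)).card = m := by
      rw [cls_of_mem hg, Finset.card_map]
    have hint : ¬ Disjoint (cls G (g a)) (cls G a) := by
      intro hd
      have := Finset.card_union_of_disjoint hd
      have h6 : (cls G (g a) ∪ cls G a).card ≤ n := Finset.card_le_univ _
      rw [this, hc1] at h6
      omega
    rw [Finset.not_disjoint_iff] at hint
    obtain ⟨x, hx1, hx2⟩ := hint
    exact (mem_cls.1 hx1).trans (mem_cls.1 hx2).symm)
  rw [Finset.card_singleton, mul_one] at h5
  have h6 : n.choose m < n.choose r := lt_of_le_of_lt h5 hG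
  by_contra hc
  push Not at hc
  have h7 : m = n - r ∨ m = n - (r + 1) := by omega
  rcases h7 with h7 | h7
  · rw [h7, Nat.choose_symm (by omega)] at h6
    exact lt_irrefl _ h6
  · rw [h7, Nat.choose_symm (by omega)] at h6
    have := choose_mono_mid (n := n) (r := r) (m := r + 1) (by omega) (by omega)
    omega

end Pool.Agent.SymCirc
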