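import Mathlib
import Pool.Agent.Lib.MP_678664_lc_h46.BigClass

namespace Pool.Agent.SymCirc

open Equiv Equiv.Perm

variable {α : Type} [DecidableEq α] [Fintype α]

/-- the canonical support of a subgroup: the points whose class has at most half of the points -/
noncomputable def sp (G : Subgroup (Perm α)) : Finset α :=
  Finset.univ.filter (fun a => 2 * (cls G a).card ≤ Fintype.card α)

lemma mem_sp {G : Subgroup (Perm α)} {a : α} :
    a ∈ sp G ↔ 2 * (cls G a).card ≤ Fintype.card α := by
  simp [sp]

lemma sp_conj {G H : Subgroup (Perm α)} {π : Perm α} (h1 : ∀ σ ∈ G, π * σ * π⁻¹ ∈ H)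
    (h2 : ∀ σ ∈ H, π⁻¹ * σ * π ∈ G) : sp H = (sp G).map π.toEmbedding := by
  ext x
  rw [Finset.mem_map_equiv, mem_sp, mem_sp]
  have := cls_conj h1 h2 (π.symm x)
  rw [Equiv.apply_symm_apply] at this
  rw [this, Finset.card_map]

lemma sp_top (h : 3 ≤ Fintype.card α) : sp (⊤ : Subgroup (Perm α)) = ∅ := by
  classical
  have hall : ∀ a b : α, Rel (⊤ : Subgroup (Perm α)) a b := by
    intro a b
    by_cases hab : a = b
    · exact Or.inl hab
    · obtain ⟨c, hc⟩ : ∃ c, c ∉ ({a, b} : Finset α) := by
        by_contra hc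
        push Not at hc
        have : (Finset.univ : Finset α) ⊆ {a, b} := fun x _ => hc x
        have := Finset.card_le_card this
        rw [Finset.card_univ, Finset.card_pair hab] at this
        omega
      simp only [Finset.mem_insert, Finset.mem_singleton, not_or] at hc
      exact Or.inr ⟨hab, c, hc.1, hc.2, Subgroup.mem_top _⟩
  ext x
  rw [mem_sp]
  have : cls (⊤ : Subgroup (Perm α)) x = Finset.univ := by
    ext y; simp [mem_cls, hall]
  rw [this, Finset.card_univ]
  constructor
  · intro h'; omega
  · intro h'; exact absurd h' (Finset.notMem_empty _)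

theorem exists_sp_bound (r : ℕ) (hr : 1 ≤ r) : ∃ n₀,
    ∀ {α : Type} [DecidableEq α] [Fintype α], n₀ ≤ Fintype.card α →
    ∀ G : Subgroup (Perm α), G.index < (Fintype.card α).choose r →
    (sp G).card < r ∧ ∀ π : Perm α, sign π = 1 → (∀ x ∈ sp G, π x = x) → π ∈ G := by
  obtain ⟨n₀, hn₀, h⟩ := exists_big_cls r hr
  refine ⟨n₀, ?_⟩
  intro α _ _ hα G hG
  obtain ⟨a, ha⟩ := h hα G hG
  have hsp : ∀ x, x ∈ sp G ↔ x ∉ cls G a := by
    intro x
    rw [mem_sp]
    constructor
    · intro h1 h2
      rw [mem_cls] at h2
      rw [← cls_eq_of_rel h2] at h1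
      omega
    · intro h1
      have hd : Disjoint (cls G x) (cls G a) := by
        rw [Finset.disjoint_left]
        intro y hy1 hy2
        apply h1
        rw [mem_cls] at *
        exact hy2.trans hy1.symm
      have h2 := Finset.card_union_of_disjoint hd
      have h3 : (cls G x ∪ cls G a).card ≤ Fintype.card α := Finset.card_le_univ _
      rw [h2] at h3
      omega
  constructor
  · have h1 : Disjoint (sp G) (cls G a) := by
      rw [Finset.disjoint_left]
      intro y hy
      exact (hsp y).1 hy
    have h2 := Finset.card_union_of_disjoint h1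
    have h3 : (sp G ∪ cls G a).card ≤ Fintype.card α := Finset.card_le_univ _
    rw [h2] at h3
    omega
  · intro π hs hfix
    apply mem_of_fix_outside a hs
    intro x hx
    apply hfix
    rw [hsp, mem_cls]
    exact hx

end Pool.Agent.SymCirc
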