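import Mathlib
import Pool.Agent.Lib.MP_678664_lc_h46.Defs
import Pool.Agent.Lib.MP_678664_lc_h46.Sp

namespace Pool.Agent.SymCirc

set_option linter.unusedSectionVars false

open Equiv Equiv.Perm

section circuit
variable {V : Type} [Fintype V] [DecidableEq V] {Γ : Type} [Fintype Γ]

lemma Circuit.val_eq (C : Circuit V Γ) (x : Sym2 V → Bool) (g : Γ) :
    C.val x g = C.op g ((∑ e : Sym2 V, C.inVar g e * (x e).toNat) +
      ∑ h : Γ, C.inGate g h * (C.val x h).toNat) := by
  rw [Circuit.val]
  congr 2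
  apply Finset.sum_congr rfl
  intro h _
  by_cases hw : C.inGate g h ≠ 0
  · rw [dif_pos hw]
  · rw [dif_neg hw]
    push Not at hw
    rw [hw, zero_mul]

/-- the permutation of the unordered pairs induced by a permutation of the points -/
def pairPerm {V : Type} (π : Perm V) : Perm (Sym2 V) where
  toFun e := e.map π
  invFun e := e.map (π⁻¹ : Perm V)
  left_inv e := by
    show (e.map π).map (π⁻¹ : Perm V) = e
    rw [Sym2.map_map]
    have : ((π⁻¹ : Perm V) : V → V) ∘ π = id := by
      ext v; exact inv_app π v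
    rw [this, Sym2.map_id]
    rfl
  right_inv e := by
    show (e.map (π⁻¹ : Perm V)).map π = e
    rw [Sym2.map_map]
    have : (π : V → V) ∘ (π⁻¹ : Perm V) = id := by
      ext v; exact app_inv π v
    rw [this, Sym2.map_id]
    rfl

lemma Circuit.IsAut.one (C : Circuit V Γ) : C.IsAut 1 1 where
  op_eq _ := rfl
  var_eq g e := by
    have : e.map (1 : Perm V) = e := by
      rw [Perm.coe_one, Sym2.map_id]; rfl
    rw [this]; rfl
  gate_eq _ _ := rfl
  out_eq := rfl

lemma Circuit.IsAut.mul {C : Circuit V Γ} {π π' : Perm V} {τ τ' : Perm Γ}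
    (h : C.IsAut π τ) (h' : C.IsAut π' τ') : C.IsAut (π * π') (τ * τ') where
  op_eq g := by rw [Perm.mul_apply, h.op_eq, h'.op_eq]
  var_eq g e := by
    have : e.map (π * π' : Perm V) = (e.map π').map π := by
      rw [Sym2.map_map, Perm.coe_mul]
    rw [this, Perm.mul_apply, h.var_eq, h'.var_eq]
  gate_eq g k := by rw [Perm.mul_apply, Perm.mul_apply, h.gate_eq, h'.gate_eq]
  out_eq := by rw [Perm.mul_apply, h'.out_eq, h.out_eq]

lemma Circuit.IsAut.inv {C : Circuit V Γ} {π : Perm V} {τ : Perm Γ}
    (h : C.IsAut π τ) : C.IsAut π⁻¹ τ⁻¹ where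
  op_eq g := by
    have := h.op_eq (τ⁻¹ g)
    rw [app_inv] at this
    exact this.symm
  var_eq g e := by
    have := h.var_eq (τ⁻¹ g) (e.map (π⁻¹ : Perm V))
    rw [app_inv] at this
    rw [← this]
    congr 1
    rw [Sym2.map_map]
    have : (π : V → V) ∘ (π⁻¹ : Perm V) = id := by
      ext v; exact app_inv π v
    rw [this, Sym2.map_id]
    rfl
  gate_eq g k := by
    have := h.gate_eq (τ⁻¹ g) (τ⁻¹ k)
    rw [app_inv, app_inv] at this
    exact this.symm
  out_eq := by
    rw [inv_eq_iff_eq]; exact h.out_eq.symm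

/-- the group of vertex permutations having a lift that fixes the gate `g` -/
def Circuit.stab (C : Circuit V Γ) (g : Γ) : Subgroup (Perm V) where
  carrier := {π | ∃ τ, C.IsAut π τ ∧ τ g = g}
  one_mem' := ⟨1, Circuit.IsAut.one C, rfl⟩
  mul_mem' := by
    rintro π π' ⟨τ, h, hg⟩ ⟨τ', h', hg'⟩
    exact ⟨τ * τ', h.mul h', by rw [Perm.mul_apply, hg', hg]⟩
  inv_mem' := by
    rintro π ⟨τ, h, hg⟩
    exact ⟨τ⁻¹, h.inv, by rw [inv_eq_iff_eq]; exact hg.symm⟩

lemma Circuit.mem_stab {C : Circuit V Γ} {g : Γ} {π : Perm V} :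
    π ∈ C.stab g ↔ ∃ τ, C.IsAut π τ ∧ τ g = g := Iff.rfl

lemma Circuit.stab_out {C : Circuit V Γ} (hC : C.Symmetric) : C.stab C.out = ⊤ := by
  rw [eq_top_iff]
  intro π _
  obtain ⟨τ, hτ⟩ := hC π
  exact ⟨τ, hτ, hτ.out_eq⟩

/-- the group of vertex permutations induced by automorphisms -/
def Circuit.aut (C : Circuit V Γ) : Subgroup (Perm V) where
  carrier := {π | ∃ τ, C.IsAut π τ}
  one_mem' := ⟨1, Circuit.IsAut.one C⟩
  mul_mem' := by
    rintro π π' ⟨τ, h⟩ ⟨τ', h'⟩
    exact ⟨τ * τ', h.mul h'⟩
  inv_mem' := by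
    rintro π ⟨τ, h⟩
    exact ⟨τ⁻¹, h.inv⟩

lemma Circuit.stab_le_aut (C : Circuit V Γ) (g : Γ) : C.stab g ≤ C.aut := by
  rintro π ⟨τ, h, -⟩
  exact ⟨τ, h⟩

lemma Circuit.stab_out_eq (C : Circuit V Γ) : C.stab C.out = C.aut := by
  apply le_antisymm (C.stab_le_aut _)
  rintro π ⟨τ, h⟩
  exact ⟨τ, h, h.out_eq⟩

lemma Circuit.index_aut_mul (C : Circuit V Γ) :
    C.aut.index * C.numSym = (Fintype.card V).factorial := by
  rw [mul_comm]
  have h1 : C.numSym = Nat.card C.aut := rfl
  rw [h1, Subgroup.card_mul_index, Nat.card_eq_fintype_card, Fintype.card_perm]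

/-- the orbit of a non-output gate misses the output gate -/
lemma Circuit.index_stab_le {C : Circuit V Γ} {g : Γ} (hg : g ≠ C.out) :
    (C.stab g).index ≤ (Fintype.card Γ - 1) * C.aut.index := by
  classical
  rw [← Subgroup.relIndex_mul_index (C.stab_le_aut g)]
  apply Nat.mul_le_mul_right
  -- bound the relative index
  have hC : ∀ π : C.aut, ∃ τ, C.IsAut π.1 τ := fun π => π.2
  choose τ hτ using hC
  have hfin : Fintype (C.aut ⧸ (C.stab g).subgroupOf C.aut) := Fintype.ofFinite _
  let f : (C.aut ⧸ (C.stab g).subgroupOf C.aut) → {h : Γ // h ≠ C.out} :=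
    fun q => ⟨τ q.out g, by
      intro e
      apply hg
      have h1 := (hτ q.out).out_eq
      rw [← h1] at e
      exact (τ q.out).injective e⟩
  have hf : Function.Injective f := by
    intro q q' h
    have h1 : τ q.out g = τ q'.out g := congrArg Subtype.val h
    have h2 : (q.out)⁻¹ * q'.out ∈ (C.stab g).subgroupOf C.aut := by
      rw [Subgroup.mem_subgroupOf]
      refine ⟨(τ q.out)⁻¹ * τ q'.out, ((hτ q.out).inv).mul (hτ q'.out), ?_⟩
      rw [Perm.mul_apply, ← h1, inv_app]
    have h3 : ((q.out : C.aut) : C.aut ⧸ (C.stab g).subgroupOf C.aut) =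
        ((q'.out : C.aut) : C.aut ⧸ (C.stab g).subgroupOf C.aut) :=
      QuotientGroup.eq.2 h2
    rw [QuotientGroup.out_eq', QuotientGroup.out_eq'] at h3
    exact h3
  have h4 := Fintype.card_le_of_injective f hf
  have h5 : Fintype.card {h : Γ // h ≠ C.out} < Fintype.card Γ :=
    Fintype.card_subtype_lt (x := C.out) (by simp)
  have h6 : (C.stab g).relIndex C.aut =
      Fintype.card (C.aut ⧸ (C.stab g).subgroupOf C.aut) := by
    rw [← Nat.card_eq_fintype_card]; rfl
  omega

/-- the canonical support of a gate -/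
noncomputable def Circuit.gsp (C : Circuit V Γ) (g : Γ) : Finset V := sp (C.stab g)

lemma Circuit.gsp_map {C : Circuit V Γ} {π : Perm V} {τ : Perm Γ} (h : C.IsAut π τ) (g : Γ) :
    C.gsp (τ g) = (C.gsp g).map π.toEmbedding := by
  apply sp_conj
  · rintro σ ⟨ρ, hρ, hg⟩
    refine ⟨τ * ρ * τ⁻¹, (h.mul hρ).mul h.inv, ?_⟩
    rw [Perm.mul_apply, Perm.mul_apply, inv_app, hg]
  · rintro σ ⟨ρ, hρ, hg⟩
    refine ⟨τ⁻¹ * ρ * τ, (h.inv.mul hρ).mul h, ?_⟩
    rw [Perm.mul_apply, Perm.mul_apply, hg, inv_app]

/-- automorphisms transport values -/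
lemma Circuit.val_aut {C : Circuit V Γ} {π : Perm V} {τ : Perm Γ} (h : C.IsAut π τ)
    {x x' : Sym2 V → Bool} (hx : ∀ e, x' (e.map π) = x e) (g : Γ) :
    C.val x' (τ g) = C.val x g := by
  induction hr : C.rank g using Nat.strong_induction_on generalizing g with
  | _ r ih =>
    rw [C.val_eq x' (τ g), C.val_eq x g, h.op_eq]
    congr 2
    · rw [← (Equiv.sum_comp (pairPerm π) _)]
      apply Finset.sum_congr rfl
      intro e _
      have : (pairPerm π) e = e.map π := rfl
      rw [this, h.var_eq, hx]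
    · rw [← (Equiv.sum_comp τ _)]
      apply Finset.sum_congr rfl
      intro k _
      rw [h.gate_eq]
      by_cases hk : C.inGate g k = 0
      · rw [hk, zero_mul, zero_mul]
      · rw [ih (C.rank k) (hr ▸ C.acyclic hk) k rfl]

end circuit

/-- sums agree when they agree class by class up to a permutation -/
lemma sum_eq_of_classes {Y K : Type} [Fintype Y] [Fintype K] [DecidableEq K] (q : Y → K)
    (F F' : Y → ℕ) (τ : K → Perm Y) (hq : ∀ c y, q (τ c y) = q y)
    (hF : ∀ c y, q y = c → F y = F' (τ c y)) : ∑ y, F y = ∑ y, F' y := by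
  classical
  rw [← Finset.sum_fiberwise (s := Finset.univ) (g := q) (f := F),
    ← Finset.sum_fiberwise (s := Finset.univ) (g := q) (f := F')]
  apply Finset.sum_congr rfl
  intro c _
  apply Finset.sum_equiv (τ c)
  · intro y
    simp only [Finset.mem_filter, Finset.mem_univ, true_and, hq]
  · intro y hy
    exact hF c y (Finset.mem_filter.1 hy).2

section family
variable {V I : Type} [Fintype V] [DecidableEq V] [Fintype I] [DecidableEq I] {T : Type}

/-- the fibres met by a set of vertices -/
def bset (base : V → Option I) (A : Finset V) : Finset I :=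
  A.biUnion (fun a => (base a).toFinset)

lemma mem_bset {base : V → Option I} {A : Finset V} {i : I} :
    i ∈ bset base A ↔ ∃ a ∈ A, base a = some i := by
  simp [bset]

lemma card_bset_le (base : V → Option I) (A : Finset V) : (bset base A).card ≤ A.card := by
  unfold bset
  refine Finset.card_biUnion_le.trans ?_
  calc ∑ a ∈ A, ((base a).toFinset).card ≤ ∑ _a ∈ A, 1 := by
        apply Finset.sum_le_sum
        intro a _
        cases base a <;> simp
    _ = A.card := by simp

lemma bset_map {base : V → Option I} {φ : Perm V} (hφ : ∀ v, base (φ v) = base v)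
    (A : Finset V) : bset base (A.map φ.toEmbedding) = bset base A := by
  ext i
  rw [mem_bset, mem_bset]
  constructor
  · rintro ⟨a, ha, hb⟩
    obtain ⟨a', ha', rfl⟩ := Finset.mem_map.1 ha
    refine ⟨a', ha', ?_⟩
    rw [← hφ]; exact hb
  · rintro ⟨a, ha, hb⟩
    exact ⟨φ a, Finset.mem_map.2 ⟨a, ha, rfl⟩, by rw [hφ]; exact hb⟩

/-- A family of graphs on `V` indexed by twists, in which the twist can be moved away from few
fibres by even permutations. -/
structure TwistFamily (V I T : Type) [Fintype V] [DecidableEq V] [Fintype I] [DecidableEq I]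
    (r : ℕ) where
  base : V → Option I
  X : T → Sym2 V → Bool
  Agree : Finset I → T → T → Prop
  agree_empty : ∀ t t', Agree ∅ t t'
  edge : ∀ t t' a b, Agree (bset base {a, b}) t t' → X t s(a, b) = X t' s(a, b)
  move : ∀ (P Q : Finset I) (t t' : T), Q.card ≤ r → Agree P t t' →
    ∃ (φ : Perm V) (t'' : T), sign φ = 1 ∧ (∀ v, base (φ v) = base v) ∧
      (∀ v, (∀ i, base v = some i → i ∈ P) → φ v = v) ∧ Agree Q t t'' ∧
      ∀ e : Sym2 V, X t' (e.map φ) = X t'' e

/-- the fibres met by an unordered pair -/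
def pset (base : V → Option I) (e : Sym2 V) : Finset I := bset base e.toFinset

lemma pset_map {base : V → Option I} {φ : Perm V} (hφ : ∀ v, base (φ v) = base v)
    (e : Sym2 V) : pset base (e.map φ) = pset base e := by
  unfold pset
  have : (e.map φ).toFinset = e.toFinset.map φ.toEmbedding := by
    ext v
    simp only [Sym2.mem_toFinset, Sym2.mem_map, Finset.mem_map]
    rfl
  rw [this, bset_map hφ]

variable {Γ : Type} [Fintype Γ]

theorem TwistFamily.val_eq {r : ℕ} (hr : 2 ≤ r) (𝓕 : TwistFamily V I T r) (C : Circuit V Γ)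
    (hgs : ∀ g, (C.gsp g).card ≤ r ∧
      ∀ π : Perm V, sign π = 1 → (∀ x ∈ C.gsp g, π x = x) → π ∈ C.stab g)
    (g : Γ) (t t' : T) (ht : 𝓕.Agree (bset 𝓕.base (C.gsp g)) t t') :
    C.val (𝓕.X t) g = C.val (𝓕.X t') g := by
  classical
  induction hrk : C.rank g using Nat.strong_induction_on generalizing g t t' with
  | _ n ih =>
    -- for each small set of fibres a moving automorphism fixing `g`
    have hmv : ∀ Q : Finset I, ∃ (φ : Perm V) (t'' : T) (τ : Perm Γ), (Q.card ≤ r →
        ((∀ v, 𝓕.base (φ v) = 𝓕.base v) ∧ 𝓕.Agree Q t t'' ∧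
          (∀ e : Sym2 V, 𝓕.X t' (e.map φ) = 𝓕.X t'' e) ∧ C.IsAut φ τ ∧ τ g = g)) := by
      intro Q
      by_cases hQ : Q.card ≤ r
      · obtain ⟨φ, t'', h1, h2, h3, h4, h5⟩ := 𝓕.move (bset 𝓕.base (C.gsp g)) Q t t' hQ ht
        have h6 : φ ∈ C.stab g := by
          apply (hgs g).2 φ h1
          intro v hv
          apply h3
          intro i hi
          exact mem_bset.2 ⟨v, hv, hi⟩
        obtain ⟨τ, hτ, hτg⟩ := h6
        exact ⟨φ, t'', τ, fun _ => ⟨h2, h4, h5, hτ, hτg⟩⟩
      · exact ⟨1, t, 1, fun h => absurd h hQ⟩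
    choose φ t'' τ hmv using hmv
    rw [C.val_eq (𝓕.X t) g, C.val_eq (𝓕.X t') g]
    congr 2
    · -- variables
      apply sum_eq_of_classes (pset 𝓕.base) _ _
        (fun Q => if Q.card ≤ r then pairPerm (φ Q) else 1)
      · intro Q e
        by_cases hQ : Q.card ≤ r
        · simp only [hQ, if_true]
          exact pset_map (hmv Q hQ).1 e
        · simp only [hQ, if_false]
          rfl
      · intro Q e he
        have hQ : Q.card ≤ r := by
          rw [← he]
          refine (card_bset_le _ _).trans (le_trans ?_ hr)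
          induction e using Sym2.ind with
          | _ a b =>
            rw [Sym2.toFinset_mk_eq]
            exact Finset.card_le_two
        simp only [hQ, if_true]
        obtain ⟨h1, h2, h3, h4, h5⟩ := hmv Q hQ
        have e1 : (pairPerm (φ Q)) e = e.map (φ Q) := rfl
        have e2 : C.inVar g (e.map (φ Q)) = C.inVar g e := by
          have := h4.var_eq g e
          rw [h5] at this
          exact this
        rw [e1, e2, h3]
        congr 2
        induction e using Sym2.ind with
        | _ a b =>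
          apply 𝓕.edge
          rw [← Sym2.toFinset_mk_eq]
          unfold pset at he
          rw [he]
          exact h2
    · -- gates
      apply sum_eq_of_classes (fun h => bset 𝓕.base (C.gsp h)) _ _
        (fun Q => if Q.card ≤ r then τ Q else 1)
      · intro Q h
        by_cases hQ : Q.card ≤ r
        · simp only [hQ, if_true]
          rw [Circuit.gsp_map (hmv Q hQ).2.2.2.1, bset_map (hmv Q hQ).1]
        · simp only [hQ, if_false]
          rfl
      · intro Q h hh
        have hQ : Q.card ≤ r := by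
          rw [← hh]
          exact (card_bset_le _ _).trans (hgs h).1
        simp only [hQ, if_true]
        obtain ⟨h1, h2, h3, h4, h5⟩ := hmv Q hQ
        have e2 : C.inGate g (τ Q h) = C.inGate g h := by
          have := h4.gate_eq g h
          rw [h5] at this
          exact this
        rw [e2]
        by_cases hw : C.inGate g h = 0
        · rw [hw, zero_mul, zero_mul]
        · congr 2
          rw [Circuit.val_aut h4 h3 h]
          apply ih (C.rank h) (hrk ▸ C.acyclic hw) h t (t'' Q) _ rfl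
          rw [hh]
          exact h2

/-- circuits whose size times asymmetry is below `C(|V|, r+1)` do not see the twist, provided the
support of the output gate is outside the fibres -/
theorem exists_blind (r : ℕ) (hr : 2 ≤ r) : ∃ n₀, ∀ (V I T : Type) [Fintype V] [DecidableEq V]
    [Fintype I] [DecidableEq I] (Γ : Type) [Fintype Γ]
    (C : Circuit V Γ), n₀ ≤ Fintype.card V →
    C.aut.index < (Fintype.card V).choose (r + 1) →
    (Fintype.card Γ - 1) * C.aut.index < (Fintype.card V).choose (r + 1) →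
    (C.gsp C.out).card ≤ r ∧ ∀ (𝓕 : TwistFamily V I T r),
      (∀ x ∈ C.gsp C.out, 𝓕.base x = none) → ∀ t t' : T,
      C.val (𝓕.X t) C.out = C.val (𝓕.X t') C.out := by
  obtain ⟨n₀, hn₀⟩ := exists_sp_bound (r + 1) (by omega)
  refine ⟨n₀, ?_⟩
  intro V I T _ _ _ _ Γ _ C hV h1 h2
  have hgs : ∀ g, (C.gsp g).card ≤ r ∧
      ∀ π : Perm V, sign π = 1 → (∀ x ∈ C.gsp g, π x = x) → π ∈ C.stab g := by
    intro g
    have h3 : (C.stab g).index < (Fintype.card V).choose (r + 1) := by
      by_cases hg : g = C.out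
      · subst hg
        rw [Circuit.stab_out_eq]
        exact h1
      · exact lt_of_le_of_lt (Circuit.index_stab_le hg) h2
    obtain ⟨h4, h5⟩ := hn₀ hV (C.stab g) h3
    exact ⟨by unfold Circuit.gsp; omega, h5⟩
  refine ⟨(hgs _).1, ?_⟩
  intro 𝓕 hout t t'
  apply 𝓕.val_eq hr C hgs
  have : bset 𝓕.base (C.gsp C.out) = ∅ := by
    rw [Finset.eq_empty_iff_forall_notMem]
    intro i hi
    obtain ⟨a, ha, hb⟩ := mem_bset.1 hi
    rw [hout a ha] at hb
    exact absurd hb (by simp)
  rw [this]
  exact 𝓕.agree_empty t t'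

end family

end Pool.Agent.SymCirc
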