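import Mathlib
import Pool.Agent.Lib.MP_678664_lc_h46.Algebra
import Pool.Agent.Lib.MP_678664_lc_h46.Induct

namespace Pool.Agent.SymCirc

set_option linter.unusedSectionVars false

open Equiv Equiv.Perm

section
variable {k c : ℕ} {F : Type} [Field F] {V R : Type} [Fintype V] [DecidableEq V]

/-- twists: antisymmetric functions on pairs of fibres -/
abbrev Twist (k : ℕ) (F : Type) [Field F] : Type :=
  {t : Fin k → Fin k → F // ∀ v w, t w v = - t v w}

/-- adjacency of the twisted graph -/
def adj (e : V ≃ (Fin k × (Fin c → F)) ⊕ R) (α : Fin k → F) (t : Twist k F) (a b : V) : Prop :=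
  ∃ v w P Q, e a = Sum.inl (v, P) ∧ e b = Sum.inl (w, Q) ∧ v ≠ w ∧
    ev P (α w) - ev Q (α v) = t.1 v w

lemma adj_symm {e : V ≃ (Fin k × (Fin c → F)) ⊕ R} {α : Fin k → F} {t : Twist k F} {a b : V}
    (h : adj e α t a b) : adj e α t b a := by
  obtain ⟨v, w, P, Q, h1, h2, h3, h4⟩ := h
  refine ⟨w, v, Q, P, h2, h1, h3.symm, ?_⟩
  rw [t.2 v w, ← h4]
  ring

/-- the twisted graph -/
def gr (e : V ≃ (Fin k × (Fin c → F)) ⊕ R) (α : Fin k → F) (t : Twist k F) : SimpleGraph V where
  Adj := adj e α t
  symm := ⟨fun _ _ h => adj_symm h⟩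
  loopless := ⟨by
    rintro a ⟨v, w, P, Q, h1, h2, h3, -⟩
    rw [h1] at h2
    exact h3 (Prod.ext_iff.1 (Sum.inl_injective h2)).1⟩

/-- the fibre of a vertex -/
def bs (e : V ≃ (Fin k × (Fin c → F)) ⊕ R) (a : V) : Option (Fin k) :=
  Sum.elim (fun x => some x.1) (fun _ => none) (e a)

/-- translation in the fibres -/
def shiftW (a : Fin k → Fin c → F) : Perm (Fin k × (Fin c → F)) where
  toFun x := (x.1, x.2 + a x.1)
  invFun x := (x.1, x.2 - a x.1)
  left_inv x := by simp
  right_inv x := by simp

/-- translation of the vertices -/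
def shift (e : V ≃ (Fin k × (Fin c → F)) ⊕ R) (a : Fin k → Fin c → F) : Perm V :=
  e.trans ((Equiv.sumCongr (shiftW a) (Equiv.refl R)).trans e.symm)

lemma e_shift_inl {e : V ≃ (Fin k × (Fin c → F)) ⊕ R} {a : Fin k → Fin c → F} {x : V}
    {v : Fin k} {P : Fin c → F} (h : e x = Sum.inl (v, P)) :
    e (shift e a x) = Sum.inl (v, P + a v) := by
  unfold shift
  rw [Equiv.trans_apply, Equiv.trans_apply, Equiv.apply_symm_apply, h]
  rfl

lemma e_shift_inr {e : V ≃ (Fin k × (Fin c → F)) ⊕ R} {a : Fin k → Fin c → F} {x : V}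
    {r : R} (h : e x = Sum.inr r) : e (shift e a x) = Sum.inr r := by
  unfold shift
  rw [Equiv.trans_apply, Equiv.trans_apply, Equiv.apply_symm_apply, h]
  rfl

lemma shift_add (e : V ≃ (Fin k × (Fin c → F)) ⊕ R) (a b : Fin k → Fin c → F) :
    shift e (a + b) = shift e b * shift e a := by
  ext x
  apply e.injective
  rw [Perm.mul_apply]
  rcases hx : e x with ⟨v, P⟩ | r
  · rw [e_shift_inl hx, e_shift_inl (e_shift_inl hx)]
    rw [Pi.add_apply, add_assoc]
  · rw [e_shift_inr hx, e_shift_inr (e_shift_inr hx)]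

lemma sign_shift (h2 : (2 : F) ≠ 0) (e : V ≃ (Fin k × (Fin c → F)) ⊕ R)
    (a : Fin k → Fin c → F) : sign (shift e a) = 1 := by
  have h1 : a = (fun v i => (2 : F)⁻¹ * a v i) + (fun v i => (2 : F)⁻¹ * a v i) := by
    funext v i
    show a v i = (2 : F)⁻¹ * a v i + (2 : F)⁻¹ * a v i
    rw [← two_mul, ← mul_assoc, mul_inv_cancel₀ h2, one_mul]
  rw [h1, shift_add, Perm.sign_mul]
  exact Int.units_mul_self _

lemma bs_shift (e : V ≃ (Fin k × (Fin c → F)) ⊕ R) (a : Fin k → Fin c → F) (x : V) :
    bs e (shift e a x) = bs e x := by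
  unfold bs
  rcases hx : e x with ⟨v, P⟩ | r
  · rw [e_shift_inl hx]; rfl
  · rw [e_shift_inr hx]

/-- the coboundary -/
def bd (α : Fin k → F) (a : Fin k → Fin c → F) (v w : Fin k) : F :=
  ev (a v) (α w) - ev (a w) (α v)

lemma bd_antisymm (α : Fin k → F) (a : Fin k → Fin c → F) (v w : Fin k) :
    bd α a w v = - bd α a v w := by
  unfold bd; ring

/-- the twist changed by a coboundary -/
def tsub (t : Twist k F) (α : Fin k → F) (a : Fin k → Fin c → F) : Twist k F :=
  ⟨fun v w => t.1 v w - bd α a v w, fun v w => by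
    show t.1 w v - bd α a w v = - (t.1 v w - bd α a v w)
    rw [t.2 v w, bd_antisymm]; ring⟩

lemma adj_shift (e : V ≃ (Fin k × (Fin c → F)) ⊕ R) (α : Fin k → F) (t : Twist k F)
    (a : Fin k → Fin c → F) (x y : V) :
    adj e α t (shift e a x) (shift e a y) ↔ adj e α (tsub t α a) x y := by
  constructor
  · rintro ⟨v, w, P, Q, h1, h2, h3, h4⟩
    rcases hx : e x with ⟨v', P'⟩ | r
    · rcases hy : e y with ⟨w', Q'⟩ | r
      · rw [e_shift_inl hx] at h1
        rw [e_shift_inl hy] at h2
        have h1' := Sum.inl_injective h1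
        have h2' := Sum.inl_injective h2
        rw [Prod.ext_iff] at h1' h2'
        simp only at h1' h2'
        obtain ⟨rfl, rfl⟩ := h1'
        obtain ⟨rfl, rfl⟩ := h2'
        refine ⟨v', w', P', Q', hx, hy, h3, ?_⟩
        show _ = t.1 v' w' - bd α a v' w'
        rw [← h4, ev_add, ev_add]
        unfold bd
        ring
      · rw [e_shift_inr hy] at h2
        exact absurd h2 (by simp)
    · rw [e_shift_inr hx] at h1
      exact absurd h1 (by simp)
  · rintro ⟨v, w, P, Q, h1, h2, h3, h4⟩
    refine ⟨v, w, P + a v, Q + a w, e_shift_inl h1, e_shift_inl h2, h3, ?_⟩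
    have h5 : ev P (α w) - ev Q (α v) = t.1 v w - bd α a v w := h4
    rw [ev_add, ev_add]
    unfold bd at h5
    linear_combination h5

open Classical in
/-- the indicator of the edges -/
noncomputable def ind (G : SimpleGraph V) : Sym2 V → Bool := fun e => decide (e ∈ G.edgeSet)

open Classical in
lemma ind_eq_iff {G H : SimpleGraph V} {e e' : Sym2 V} (h : e ∈ G.edgeSet ↔ e' ∈ H.edgeSet) :
    ind G e = ind H e' := by
  unfold ind
  by_cases h1 : e ∈ G.edgeSet
  · rw [decide_eq_true h1, decide_eq_true (h.1 h1)]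
  · rw [decide_eq_false h1, decide_eq_false (fun h2 => h1 (h.2 h2))]

open Classical in
/-- the family of twisted graphs -/
noncomputable def family (h2 : (2 : F) ≠ 0) (e : V ≃ (Fin k × (Fin c → F)) ⊕ R) (α : Fin k → F)
    (hα : Function.Injective α) : TwistFamily V (Fin k) (Twist k F) (c + 1) where
  base := bs e
  X t := ind (gr e α t)
  Agree Q t t' := ∀ v ∈ Q, ∀ w ∈ Q, v ≠ w → t.1 v w = t'.1 v w
  agree_empty := by
    intro t t' v hv
    exact absurd hv (Finset.notMem_empty _)
  edge := by
    intro t t' a b h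
    apply ind_eq_iff
    rw [SimpleGraph.mem_edgeSet, SimpleGraph.mem_edgeSet]
    have key : ∀ t t' : Twist k F, (∀ v ∈ bset (bs e) {a, b}, ∀ w ∈ bset (bs e) {a, b},
        v ≠ w → t.1 v w = t'.1 v w) → adj e α t a b → adj e α t' a b := by
      rintro t t' h ⟨v, w, P, Q, h1, h2, h3, h4⟩
      refine ⟨v, w, P, Q, h1, h2, h3, ?_⟩
      rw [h4]
      apply h
      · rw [mem_bset]
        exact ⟨a, by simp, by unfold bs; rw [h1]; rfl⟩
      · rw [mem_bset]
        exact ⟨b, by simp, by unfold bs; rw [h2]; rfl⟩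
      · exact h3
    constructor
    · exact key t t' h
    · exact key t' t (fun v hv w hw hvw => (h v hv w hw hvw).symm)
  move := by
    intro P Q t t' hQ hP
    -- the difference to be created inside `Q`
    let D : Fin k → Fin k → F := fun v w => t'.1 v w - t.1 v w
    have hD : ∀ v w, D w v = - D v w := by
      intro v w
      simp only [D]
      rw [t'.2 v w, t.2 v w]; ring
    have hex : ∀ v : Fin k, ∃ b : Fin c → F, v ∈ Q → ∀ w ∈ Q.erase v,
        ev b (α w) = if w ∈ P ∨ v < w then D v w else 0 := by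
      intro v
      by_cases hv : v ∈ Q
      · obtain ⟨b, hb⟩ := exists_ev (c := c) α (Q.erase v) (hα.injOn)
          (by rw [Finset.card_erase_of_mem hv]; omega)
          (fun w => if w ∈ P ∨ v < w then D v w else 0)
        exact ⟨b, fun _ => hb⟩
      · exact ⟨0, fun h => absurd h hv⟩
    choose b hb using hex
    let a : Fin k → Fin c → F := fun v => if v ∈ P ∨ v ∉ Q then 0 else b v
    refine ⟨shift e a, tsub t' α a, sign_shift h2 e a, bs_shift e a, ?_, ?_, ?_⟩
    · intro x hx
      apply e.injective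
      rcases hx' : e x with ⟨v, p⟩ | r
      · rw [e_shift_inl hx']
        have hv : v ∈ P := hx v (by unfold bs; rw [hx']; rfl)
        have : a v = 0 := by simp only [a]; rw [if_pos (Or.inl hv)]
        rw [this, add_zero]
      · exact e_shift_inr hx'
    · intro v hv w hw hvw
      show t.1 v w = t'.1 v w - bd α a v w
      have hgoal : bd α a v w = D v w := by
        unfold bd
        by_cases hvP : v ∈ P
        · have a1 : a v = 0 := by simp only [a]; rw [if_pos (Or.inl hvP)]
          by_cases hwP : w ∈ P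
          · have a2 : a w = 0 := by simp only [a]; rw [if_pos (Or.inl hwP)]
            have a3 := hP v hvP w hwP hvw
            rw [a1, a2, ev_zero, ev_zero]
            simp only [D]
            rw [a3]; ring
          · have a2 : a w = b w := by
              simp only [a]
              rw [if_neg]
              push Not
              exact ⟨hwP, hw⟩
            rw [a1, a2, ev_zero, hb w hw v (Finset.mem_erase.2 ⟨hvw, hv⟩), if_pos (Or.inl hvP),
              hD]
            ring
        · have a1 : a v = b v := by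
            simp only [a]
            rw [if_neg]
            push Not
            exact ⟨hvP, hv⟩
          by_cases hwP : w ∈ P
          · have a2 : a w = 0 := by simp only [a]; rw [if_pos (Or.inl hwP)]
            rw [a1, a2, ev_zero, hb v hv w (Finset.mem_erase.2 ⟨hvw.symm, hw⟩),
              if_pos (Or.inl hwP)]
            ring
          · have a2 : a w = b w := by
              simp only [a]
              rw [if_neg]
              push Not
              exact ⟨hwP, hw⟩
            rw [a1, a2, hb v hv w (Finset.mem_erase.2 ⟨hvw.symm, hw⟩),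
              hb w hw v (Finset.mem_erase.2 ⟨hvw, hv⟩)]
            rcases lt_or_gt_of_ne hvw with hlt | hgt
            · rw [if_pos (Or.inr hlt), if_neg]
              · ring
              · push Not
                exact ⟨hvP, hlt.le⟩
            · rw [if_neg, if_pos (Or.inr hgt), hD]
              · ring
              · push Not
                exact ⟨hwP, hgt.le⟩
      rw [hgoal]
      simp only [D]
      ring
    · intro s
      induction s using Sym2.ind with
      | _ x y =>
        apply ind_eq_iff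
        rw [Sym2.map_mk, SimpleGraph.mem_edgeSet, SimpleGraph.mem_edgeSet]
        exact adj_shift e α t' a x y

/-- the zero twist -/
def t0 : Twist k F := ⟨fun _ _ => 0, fun _ _ => by simp⟩

/-- the nontrivial twist -/
def t1 (α : Fin k → F) (c : ℕ) : Twist k F :=
  ⟨fun v w => (α v * α w) ^ c * (α v - α w), fun v w => by
    show (α w * α v) ^ c * (α w - α v) = - ((α v * α w) ^ c * (α v - α w))
    rw [mul_comm (α w) (α v)]; ring⟩

open Classical in
lemma exists_clique_t0 (e : V ≃ (Fin k × (Fin c → F)) ⊕ R) (α : Fin k → F) :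
    ∃ S : Finset V, (gr e α (t0 : Twist k F)).IsNClique k S := by
  refine ⟨Finset.univ.image (fun v : Fin k => e.symm (Sum.inl (v, 0))), ?_⟩
  have hinj : Function.Injective (fun v : Fin k => e.symm (Sum.inl (v, (0 : Fin c → F)))) := by
    intro v w h
    have := e.symm.injective h
    exact (Prod.ext_iff.1 (Sum.inl_injective this)).1
  rw [SimpleGraph.isNClique_iff]
  constructor
  · rw [SimpleGraph.isClique_iff]
    intro x hx y hy hxy
    rw [Finset.mem_coe, Finset.mem_image] at hx hy
    obtain ⟨v, -, rfl⟩ := hx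
    obtain ⟨w, -, rfl⟩ := hy
    refine ⟨v, w, 0, 0, Equiv.apply_symm_apply _ _, Equiv.apply_symm_apply _ _, ?_, ?_⟩
    · rintro rfl; exact hxy rfl
    · rw [ev_zero, ev_zero]; show (0 : F) - 0 = 0; ring
  · rw [Finset.card_image_of_injective _ hinj, Finset.card_univ, Fintype.card_fin]

open Classical in
lemma not_exists_clique_t1 (h2 : (2 : F) ≠ 0) (e : V ≃ (Fin k × (Fin c → F)) ⊕ R)
    (α : Fin k → F) (hα : Function.Injective α) :
    ¬ ∃ S : Finset V, (gr e α (t1 α c)).IsNClique (c + 2) S := by
  rintro ⟨S, hS⟩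
  rw [SimpleGraph.isNClique_iff, SimpleGraph.isClique_iff] at hS
  obtain ⟨hS, hc⟩ := hS
  -- every vertex of S lies in a fibre
  have h1 : ∀ x ∈ S, ∃ v P, e x = Sum.inl (v, P) := by
    intro x hx
    obtain ⟨y, hy, hyx⟩ : ∃ y ∈ S, y ≠ x := by
      have : 1 < S.card := by omega
      obtain ⟨y, hy, hne⟩ := Finset.exists_mem_ne this x
      exact ⟨y, hy, hne⟩
    obtain ⟨v, w, P, Q, h1, -⟩ := hS hx hy hyx.symm
    exact ⟨v, P, h1⟩
  have hne : Nonempty (Fin k) := by
    obtain ⟨x, hx⟩ : ∃ x, x ∈ S := by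
      apply Finset.card_pos.1 (by omega)
    obtain ⟨v, -, -⟩ := h1 x hx
    exact ⟨v⟩
  choose! f p hfp using h1
  have hadj : ∀ x ∈ S, ∀ y ∈ S, x ≠ y → f x ≠ f y ∧
      ev (p x) (α (f y)) - ev (p y) (α (f x)) =
        (α (f x) * α (f y)) ^ c * (α (f x) - α (f y)) := by
    intro x hx y hy hxy
    obtain ⟨v, w, P, Q, h1, h3, h4, h5⟩ := hS hx hy hxy
    rw [hfp x hx] at h1
    rw [hfp y hy] at h3
    have h1' := Prod.ext_iff.1 (Sum.inl_injective h1)
    have h3' := Prod.ext_iff.1 (Sum.inl_injective h3)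
    simp only at h1' h3'
    obtain ⟨e1, e2⟩ := h1'
    obtain ⟨e3, e4⟩ := h3'
    subst e1 e2 e3 e4
    exact ⟨h4, h5⟩
  have hinj : Set.InjOn f S := by
    intro x hx y hy hxy
    by_contra hne
    exact (hadj x hx y hy hne).1 hxy
  -- choose representatives
  let g : Fin k → V := fun v => if h : ∃ x ∈ S, f x = v then h.choose else e.symm (Sum.inl (v, 0))
  have hg : ∀ x ∈ S, g (f x) = x := by
    intro x hx
    have h : ∃ y ∈ S, f y = f x := ⟨x, hx, rfl⟩
    simp only [g]
    rw [dif_pos h]
    exact hinj h.choose_spec.1 hx h.choose_spec.2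
  apply no_solution h2 α (S.image f) hα.injOn
    (by rw [Finset.card_image_of_injOn hinj, hc]) (fun v => p (g v))
  intro v hv w hw hvw
  obtain ⟨x, hx, rfl⟩ := Finset.mem_image.1 hv
  obtain ⟨y, hy, rfl⟩ := Finset.mem_image.1 hw
  rw [hg x hx, hg y hy]
  have hxy : x ≠ y := by rintro rfl; exact hvw rfl
  exact (hadj x hx y hy hxy).2

end

end Pool.Agent.SymCirc
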