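import Mathlib
import Pool.Agent.Lib.MP_678664_lc_h46.Gadget

/-!
# Random relabellings of the pair
-/

namespace Pool.Agent.SymCirc

set_option linter.unusedSectionVars false

open Equiv Equiv.Perm

section count
variable {α : Type} [Fintype α] [DecidableEq α]

/-- the permutations sending `y` to `x` -/
def sendTo (y x : α) : Finset (Perm α) := Finset.univ.filter (fun π => π y = x)

lemma card_sendTo (y x x' : α) : (sendTo y x).card = (sendTo y x').card := by
  apply Finset.card_bij (fun π _ => swap x x' * π)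
  · intro π hπ
    have h := (Finset.mem_filter.1 hπ).2
    apply Finset.mem_filter.2
    refine ⟨Finset.mem_univ _, ?_⟩
    rw [Perm.mul_apply, h, swap_apply_left]
  · intro π _ π' _ h
    exact mul_left_cancel h
  · intro π hπ
    have h := (Finset.mem_filter.1 hπ).2
    refine ⟨swap x x' * π, ?_, ?_⟩
    · apply Finset.mem_filter.2
      refine ⟨Finset.mem_univ _, ?_⟩
      rw [Perm.mul_apply, h, swap_apply_right]
    · rw [← mul_assoc, swap_mul_self, one_mul]

lemma card_sendTo_mul (y x : α) :
    Fintype.card α * (sendTo y x).card = (Fintype.card α).factorial := by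
  have h1 : ∑ x' : α, (sendTo y x').card = (Fintype.card α).factorial := by
    rw [← Fintype.card_perm, ← Finset.card_univ]
    unfold sendTo
    exact (Finset.card_eq_sum_card_fiberwise (fun π _ => Finset.mem_univ (π y))).symm
  rw [← h1, Finset.sum_congr rfl (fun x' _ => card_sendTo y x' x), Finset.sum_const,
    Finset.card_univ, smul_eq_mul]

lemma card_hit_mul (W Z : Finset α) :
    Fintype.card α * (Finset.univ.filter
      (fun π : Perm α => ∃ y ∈ W, π y ∈ Z)).card ≤
      W.card * Z.card * (Fintype.card α).factorial := by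
  have h1 : (Finset.univ.filter (fun π : Perm α => ∃ y ∈ W, π y ∈ Z)) ⊆
      (W ×ˢ Z).biUnion (fun q => sendTo q.1 q.2) := by
    intro π hπ
    obtain ⟨y, hy, hz⟩ := (Finset.mem_filter.1 hπ).2
    rw [Finset.mem_biUnion]
    exact ⟨(y, π y), Finset.mem_product.2 ⟨hy, hz⟩, Finset.mem_filter.2 ⟨Finset.mem_univ _, rfl⟩⟩
  calc Fintype.card α * (Finset.univ.filter (fun π : Perm α => ∃ y ∈ W, π y ∈ Z)).card
      ≤ Fintype.card α * ∑ q ∈ W ×ˢ Z, (sendTo q.1 q.2).card :=
        Nat.mul_le_mul_left _ ((Finset.card_le_card h1).trans Finset.card_biUnion_le)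
    _ = ∑ q ∈ W ×ˢ Z, (Fintype.card α).factorial := by
        rw [Finset.mul_sum]
        exact Finset.sum_congr rfl (fun q _ => card_sendTo_mul q.1 q.2)
    _ = _ := by
        rw [Finset.sum_const, Finset.card_product, smul_eq_mul]

end count

section relabel
variable {k c : ℕ} {F : Type} [Field F] {V R : Type} [Fintype V] [DecidableEq V]

lemma gr_map (e : V ≃ (Fin k × (Fin c → F)) ⊕ R) (α : Fin k → F) (t : Twist k F)
    (π : Perm V) : (gr e α t).map π.toEmbedding = gr (π.symm.trans e) α t := by
  ext x y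
  rw [SimpleGraph.map_adj]
  constructor
  · rintro ⟨a, b, h, rfl, rfl⟩
    obtain ⟨v, w, P, Q, h1, h2, h3, h4⟩ := h
    refine ⟨v, w, P, Q, ?_, ?_, h3, h4⟩
    · rw [Equiv.trans_apply, Equiv.coe_toEmbedding, Equiv.symm_apply_apply]; exact h1
    · rw [Equiv.trans_apply, Equiv.coe_toEmbedding, Equiv.symm_apply_apply]; exact h2
  · rintro ⟨v, w, P, Q, h1, h2, h3, h4⟩
    exact ⟨π.symm x, π.symm y, ⟨v, w, P, Q, h1, h2, h3, h4⟩, by simp, by simp⟩

end relabel

/-- The pair `A`, `B`: a circuit whose size times asymmetry is below `C(n, u)` tells only few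
relabellings of `A` and `B` apart. -/
theorem exists_pair_avg (k u : ℕ) (hu : 3 ≤ u) : ∃ K n₀ : ℕ, ∀ n ≥ n₀,
    ∃ A B : SimpleGraph (Fin n), (∃ S : Finset (Fin n), A.IsNClique k S) ∧
      (¬ ∃ S : Finset (Fin n), B.IsNClique u S) ∧
      ∀ (Γ : Type) [Fintype Γ] (C : Circuit (Fin n) Γ),
        C.aut.index < n.choose u → (Fintype.card Γ - 1) * C.aut.index < n.choose u →
        n * (Finset.univ.filter (fun π : Perm (Fin n) =>
          C.output (A.map π.toEmbedding) ≠ C.output (B.map π.toEmbedding))).card ≤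
            K * n.factorial := by
  classical
  obtain ⟨c, rfl⟩ : ∃ c, u = c + 2 := ⟨u - 2, by omega⟩
  obtain ⟨n₁, hn₁⟩ := exists_blind (c + 1) (by omega)
  obtain ⟨p, hp1, hp2⟩ := Nat.exists_infinite_primes (k + 3)
  have hfact : Fact p.Prime := ⟨hp2⟩
  have h2 : (2 : ZMod p) ≠ 0 := by
    intro h
    have h3 : ((2 : ℕ) : ZMod p) = 0 := by exact_mod_cast h
    rw [ZMod.natCast_eq_zero_iff] at h3
    have := Nat.le_of_dvd (by norm_num) h3
    omega
  have hcardF : Fintype.card (Fin k) ≤ Fintype.card (ZMod p) := by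
    rw [ZMod.card, Fintype.card_fin]; omega
  obtain ⟨α⟩ := Function.Embedding.nonempty_of_card_le hcardF
  let W := Fin k × (Fin c → ZMod p)
  refine ⟨Fintype.card W * (c + 1), max n₁ (Fintype.card W), fun n hn => ?_⟩
  have hn1 : n₁ ≤ n := (le_max_left _ _).trans hn
  have hn2 : Fintype.card W ≤ n := (le_max_right _ _).trans hn
  let e : Fin n ≃ W ⊕ Fin (n - Fintype.card W) := Fintype.equivOfCardEq (by
    rw [Fintype.card_sum, Fintype.card_fin, Fintype.card_fin]; omega)
  refine ⟨gr e α t0, gr e α (t1 α c), ?_, ?_, ?_⟩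
  · obtain ⟨S, hS⟩ := exists_clique_t0 e (α : Fin k → ZMod p)
    exact ⟨S, hS⟩
  · intro h
    exact not_exists_clique_t1 h2 e α α.injective h
  · intro Γ _ C hC1 hC2
    obtain ⟨hZ, hblind⟩ := hn₁ (Fin n) (Fin k) (Twist k (ZMod p)) Γ C
      (by rw [Fintype.card_fin]; exact hn1) (by rw [Fintype.card_fin]; exact hC1)
      (by rw [Fintype.card_fin]; exact hC2)
    let W' : Finset (Fin n) := Finset.univ.image (fun x : W => e.symm (Sum.inl x))
    have hW' : W'.card ≤ Fintype.card W := Finset.card_image_le
    have hsub : (Finset.univ.filter (fun π : Perm (Fin n) =>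
          C.output ((gr e α t0).map π.toEmbedding) ≠
            C.output ((gr e α (t1 α c)).map π.toEmbedding))) ⊆
        Finset.univ.filter (fun π : Perm (Fin n) => ∃ y ∈ W', π y ∈ C.gsp C.out) := by
      intro π hπ
      have h3 := (Finset.mem_filter.1 hπ).2
      apply Finset.mem_filter.2
      refine ⟨Finset.mem_univ _, ?_⟩
      by_contra hc
      push Not at hc
      apply h3
      rw [gr_map, gr_map]
      apply hblind (family h2 (π.symm.trans e) α α.injective) _ t0 (t1 α c)
      intro x hx
      show bs (π.symm.trans e) x = none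
      unfold bs
      rw [Equiv.trans_apply]
      rcases hx' : e (π.symm x) with w | r
      · exfalso
        apply hc (π.symm x) _ (by rw [Equiv.apply_symm_apply]; exact hx)
        rw [Finset.mem_image]
        exact ⟨w, Finset.mem_univ _, by rw [← hx', Equiv.symm_apply_apply]⟩
      · rfl
    have h4 := card_hit_mul W' (C.gsp C.out)
    rw [Fintype.card_fin] at h4
    calc n * (Finset.univ.filter (fun π : Perm (Fin n) =>
          C.output ((gr e α t0).map π.toEmbedding) ≠
            C.output ((gr e α (t1 α c)).map π.toEmbedding))).card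
        ≤ n * (Finset.univ.filter
            (fun π : Perm (Fin n) => ∃ y ∈ W', π y ∈ C.gsp C.out)).card :=
          Nat.mul_le_mul_left _ (Finset.card_le_card hsub)
      _ ≤ W'.card * (C.gsp C.out).card * n.factorial := by convert h4
      _ ≤ Fintype.card W * (c + 1) * n.factorial :=
          Nat.mul_le_mul_right _ (Nat.mul_le_mul hW' hZ)

end Pool.Agent.SymCirc
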