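import Mathlib
import Pool.Agent.Lib.MP_678664_lc_h46.Induct

/-!
# Exhaustive search as a symmetric circuit
-/

namespace Pool.Agent.SymCirc

open Equiv Equiv.Perm

variable {V : Type} [Fintype V] [DecidableEq V]

/-- The circuit accepts every graph that has a `k`-clique and rejects every graph that has no
`u`-clique (nothing is required on other graphs).  For `u = k` it decides the `k`-clique
problem. -/
def Circuit.Separates {Γ : Type} [Fintype Γ] (C : Circuit V Γ) (k u : ℕ) : Prop :=
  (∀ G : SimpleGraph V, (∃ S : Finset V, G.IsNClique k S) → C.output G = true) ∧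
  (∀ G : SimpleGraph V, (¬ ∃ S : Finset V, G.IsNClique u S) → C.output G = false)

open Classical in
/-- the proper pairs inside a set -/
noncomputable def inside (S : Finset V) : Finset (Sym2 V) :=
  Finset.univ.filter (fun e => (∀ v ∈ e, v ∈ S) ∧ ¬ e.IsDiag)

open Classical in
lemma card_inside (S : Finset V) : (inside S).card = S.card.choose 2 := by
  rw [← Sym2.card_image_offDiag S]
  congr 1
  ext e
  induction e using Sym2.ind with
  | _ a b =>
    simp only [inside, Finset.mem_filter, Finset.mem_univ, true_and, Sym2.mem_iff,
      forall_eq_or_imp, forall_eq, Sym2.mk_isDiag_iff, Finset.mem_image, Finset.mem_offDiag]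
    constructor
    · rintro ⟨⟨ha, hb⟩, hne⟩
      exact ⟨(a, b), ⟨ha, hb, hne⟩, rfl⟩
    · rintro ⟨⟨x, y⟩, ⟨hx, hy, hne⟩, he⟩
      have he' : s(x, y) = s(a, b) := he
      rw [Sym2.eq_iff] at he'
      rcases he' with ⟨rfl, rfl⟩ | ⟨rfl, rfl⟩
      · exact ⟨⟨hx, hy⟩, hne⟩
      · exact ⟨⟨hy, hx⟩, fun h => hne h.symm⟩

open Classical in
/-- One AND gate for every `u`-set and one OR gate. -/
noncomputable def brute (V : Type) [Fintype V] [DecidableEq V] (u : ℕ) :
    Circuit V (Option {S : Finset V // S.card = u}) where
  inVar g e := match g with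
    | none => 0
    | some S => if e ∈ inside S.1 then 1 else 0
  inGate g h := match g, h with
    | none, some _ => 1
    | _, _ => 0
  op g t := match g with
    | none => decide (1 ≤ t)
    | some _ => decide (t = u.choose 2)
  rank g := match g with
    | none => 1
    | some _ => 0
  acyclic := by
    intro g h hw
    rcases g with _ | S <;> rcases h with _ | S' <;> simp_all
  out := none

lemma brute_val_some (u : ℕ) (G : SimpleGraph V) (S : {S : Finset V // S.card = u}) :
    (brute V u).val (by classical exact fun e => decide (e ∈ G.edgeSet)) (some S) = true ↔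
      G.IsNClique u S.1 := by
  classical
  rw [Circuit.val_eq]
  have h1 : ∑ h : Option {S : Finset V // S.card = u}, (brute V u).inGate (some S) h *
      ((brute V u).val (fun e => decide (e ∈ G.edgeSet)) h).toNat = 0 := by
    apply Finset.sum_eq_zero
    intro h _
    have : (brute V u).inGate (some S) h = 0 := by
      rcases h with _ | S' <;> rfl
    rw [this, zero_mul]
  have h2 : ∑ e : Sym2 V, (brute V u).inVar (some S) e *
      (decide (e ∈ G.edgeSet)).toNat = ((inside S.1).filter (fun e => e ∈ G.edgeSet)).card := by
    rw [Finset.card_filter, ← Finset.sum_filter_add_sum_filter_not Finset.univ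
      (fun e => e ∈ inside S.1)]
    have h3 : ∑ e ∈ Finset.univ.filter (fun e => ¬ e ∈ inside S.1),
        (brute V u).inVar (some S) e * (decide (e ∈ G.edgeSet)).toNat = 0 := by
      apply Finset.sum_eq_zero
      intro e he
      have he' := (Finset.mem_filter.1 he).2
      have : (brute V u).inVar (some S) e = if e ∈ inside S.1 then 1 else 0 := rfl
      rw [this, if_neg he', zero_mul]
    rw [h3, add_zero]
    have h4 : Finset.univ.filter (fun e => e ∈ inside S.1) = inside S.1 := by
      ext e; simp
    rw [h4]
    apply Finset.sum_congr rfl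
    intro e he
    have : (brute V u).inVar (some S) e = if e ∈ inside S.1 then 1 else 0 := rfl
    rw [this, if_pos he, one_mul]
    by_cases h5 : e ∈ G.edgeSet <;> simp [h5]
  have h3 : (brute V u).op (some S) = fun t => decide (t = u.choose 2) := rfl
  rw [h3]
  simp only [decide_eq_true_eq]
  rw [h1, add_zero]
  have h4 : (∑ e : Sym2 V, (brute V u).inVar (some S) e *
      ((fun e => decide (e ∈ G.edgeSet)) e).toNat) =
      ((inside S.1).filter (fun e => e ∈ G.edgeSet)).card := h2
  rw [h4]
  have h5 : (inside S.1).card = u.choose 2 := by rw [card_inside, S.2]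
  rw [← h5, Finset.card_filter_eq_iff, SimpleGraph.isNClique_iff, SimpleGraph.isClique_iff]
  constructor
  · intro h
    refine ⟨?_, S.2⟩
    intro a ha b hb hab
    have := h s(a, b) (by
      simp only [inside, Finset.mem_filter, Finset.mem_univ, true_and, Sym2.mem_iff,
        forall_eq_or_imp, forall_eq, Sym2.mk_isDiag_iff]
      exact ⟨⟨ha, hb⟩, hab⟩)
    rwa [SimpleGraph.mem_edgeSet] at this
  · rintro ⟨h, -⟩ e he
    induction e using Sym2.ind with
    | _ a b =>
      simp only [inside, Finset.mem_filter, Finset.mem_univ, true_and, Sym2.mem_iff,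
        forall_eq_or_imp, forall_eq, Sym2.mk_isDiag_iff] at he
      rw [SimpleGraph.mem_edgeSet]
      exact h he.1.1 he.1.2 he.2

lemma brute_output (u : ℕ) (G : SimpleGraph V) :
    (brute V u).output G = true ↔ ∃ S : Finset V, G.IsNClique u S := by
  classical
  unfold Circuit.output
  rw [Circuit.val_eq]
  have h0 : (brute V u).out = none := rfl
  rw [h0]
  have h1 : ∑ e : Sym2 V, (brute V u).inVar none e *
      ((fun e => decide (e ∈ G.edgeSet)) e).toNat = 0 := by
    apply Finset.sum_eq_zero
    intro e _
    have : (brute V u).inVar none e = 0 := rfl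
    rw [this, zero_mul]
  rw [h1, zero_add]
  have h3 : (brute V u).op none = fun t => decide (1 ≤ t) := rfl
  rw [h3]
  simp only [decide_eq_true_eq]
  rw [Nat.one_le_iff_ne_zero, Ne, Finset.sum_eq_zero_iff]
  push Not
  constructor
  · rintro ⟨h, -, hh⟩
    rcases h with _ | S
    · exact absurd (show (brute V u).inGate none none * _ = 0 from by
        have : (brute V u).inGate none none = 0 := rfl
        rw [this, zero_mul]) hh
    · refine ⟨S.1, (brute_val_some u G S).1 ?_⟩
      by_contra hc
      rw [Bool.not_eq_true] at hc
      apply hh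
      rw [hc]
      rfl
  · rintro ⟨S, hS⟩
    have hc : S.card = u := by
      rw [SimpleGraph.isNClique_iff] at hS; exact hS.2
    refine ⟨some ⟨S, hc⟩, Finset.mem_univ _, ?_⟩
    have := (brute_val_some u G ⟨S, hc⟩).2 hS
    rw [this]
    have : (brute V u).inGate none (some ⟨S, hc⟩) = 1 := rfl
    rw [this]
    decide

lemma brute_symmetric (u : ℕ) : (brute V u).Symmetric := by
  classical
  intro π
  let σ : Perm {S : Finset V // S.card = u} :=
    { toFun := fun S => ⟨S.1.map π.toEmbedding, by rw [Finset.card_map]; exact S.2⟩
      invFun := fun S => ⟨S.1.map π.symm.toEmbedding, by rw [Finset.card_map]; exact S.2⟩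
      left_inv := fun S => by
        apply Subtype.ext
        show (S.1.map π.toEmbedding).map π.symm.toEmbedding = S.1
        ext x; simp
      right_inv := fun S => by
        apply Subtype.ext
        show (S.1.map π.symm.toEmbedding).map π.toEmbedding = S.1
        ext x; simp }
  refine ⟨Equiv.optionCongr σ, ?_, ?_, ?_, ?_⟩
  · rintro (_ | S) <;> rfl
  · rintro (_ | S) e
    · rfl
    · show (if e.map π ∈ inside (S.1.map π.toEmbedding) then 1 else 0) =
        if e ∈ inside S.1 then 1 else 0
      have : e.map π ∈ inside (S.1.map π.toEmbedding) ↔ e ∈ inside S.1 := by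
        induction e using Sym2.ind with
        | _ a b =>
          simp [inside, Sym2.map_mk, Sym2.mem_iff]
      simp only [this]
  · rintro (_ | S) (_ | S') <;> rfl
  · rfl

lemma brute_separates {k u : ℕ} (h : u ≤ k) : (brute V u).Separates k u := by
  constructor
  · rintro G ⟨S, hS⟩
    rw [brute_output]
    rw [SimpleGraph.isNClique_iff] at hS
    obtain ⟨T, hTS, hT⟩ := Finset.exists_subset_card_eq (h.trans_eq hS.2.symm)
    refine ⟨T, ?_⟩
    rw [SimpleGraph.isNClique_iff]
    exact ⟨hS.1.subset (by exact_mod_cast hTS), hT⟩
  · intro G hG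
    by_contra hc
    rw [Bool.not_eq_false, brute_output] at hc
    exact hG hc

omit [DecidableEq V] in
lemma card_brute (u : ℕ) :
    Fintype.card (Option {S : Finset V // S.card = u}) = (Fintype.card V).choose u + 1 := by
  rw [Fintype.card_option, Fintype.card_finset_len]

end Pool.Agent.SymCirc
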