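import Mathlib
import Pool.Agent.Lib.MP_678664_lc_h46.Average
import Pool.Agent.Lib.MP_678664_lc_h46.Upper

namespace Pool.Agent.SymCirc

set_option linter.unusedSectionVars false

open Equiv Equiv.Perm

lemma isNClique_map_iff {n m : ℕ} (G : SimpleGraph (Fin n)) (π : Perm (Fin n)) :
    (∃ S : Finset (Fin n), (G.map π.toEmbedding).IsNClique m S) ↔
      ∃ S : Finset (Fin n), G.IsNClique m S := by
  constructor
  · rintro ⟨S, hS⟩
    refine ⟨S.map π.symm.toEmbedding, ?_⟩
    rw [SimpleGraph.isNClique_iff, SimpleGraph.isClique_iff] at *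
    refine ⟨?_, by rw [Finset.card_map]; exact hS.2⟩
    intro x hx y hy hxy
    rw [Finset.mem_coe, Finset.mem_map_equiv] at hx hy
    have := hS.1 (show (π.symm.symm x) ∈ (S : Set (Fin n)) from hx)
      (show (π.symm.symm y) ∈ (S : Set (Fin n)) from hy)
      (fun h => hxy (π.symm.symm.injective h))
    rw [SimpleGraph.map_adj] at this
    obtain ⟨a, b, hab, h1, h2⟩ := this
    have e1 : a = x := π.injective h1
    have e2 : b = y := π.injective h2
    rw [← e1, ← e2]; exact hab
  · rintro ⟨S, hS⟩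
    exact ⟨S.map π.toEmbedding, hS.map⟩

lemma Circuit.card_pos {V Γ : Type} [Fintype V] [Fintype Γ] (C : Circuit V Γ) :
    0 < Fintype.card Γ := Fintype.card_pos_iff.2 ⟨C.out⟩

lemma Circuit.aut_eq_top {V Γ : Type} [Fintype V] [DecidableEq V] [Fintype Γ] {C : Circuit V Γ}
    (hC : C.Symmetric) : C.aut = ⊤ := by
  rw [← Circuit.stab_out_eq]; exact Circuit.stab_out hC

/-- the symmetric case: the two graphs get the same output -/
theorem exists_pair (k u : ℕ) (hu : 3 ≤ u) : ∃ n₀, ∀ n ≥ n₀,
    ∃ A B : SimpleGraph (Fin n), (∃ S : Finset (Fin n), A.IsNClique k S) ∧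
      (¬ ∃ S : Finset (Fin n), B.IsNClique u S) ∧
      ∀ (Γ : Type) [Fintype Γ] (C : Circuit (Fin n) Γ), C.Symmetric →
        Fintype.card Γ ≤ n.choose u → C.output A = C.output B := by
  classical
  obtain ⟨K, n₀, h⟩ := exists_pair_avg k u hu
  refine ⟨max (max n₀ (K + 1)) (u + 1), fun n hn => ?_⟩
  have hn0 : n₀ ≤ n := (le_max_left _ _).trans ((le_max_left _ _).trans hn)
  have hn1 : K + 1 ≤ n := (le_max_right _ _).trans ((le_max_left _ _).trans hn)
  have hn2 : u + 1 ≤ n := (le_max_right _ _).trans hn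
  obtain ⟨A, B, hA, hB, hAB⟩ := h n hn0
  refine ⟨A, B, hA, hB, fun Γ _ C hC hΓ => ?_⟩
  have hidx : C.aut.index = 1 := by rw [Circuit.aut_eq_top hC, Subgroup.index_top]
  have hpos := C.card_pos
  have hch : 1 < n.choose u := by
    have h1 := choose_mono_mid (n := n) (r := 1) (m := u) (by omega) (by omega)
    rw [Nat.choose_one_right] at h1
    omega
  have h1 := hAB Γ C (by rw [hidx]; exact hch) (by rw [hidx]; omega)
  by_contra hne
  -- symmetric circuits are invariant
  have hinv : ∀ (G : SimpleGraph (Fin n)) (π : Perm (Fin n)),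
      C.output (G.map π.toEmbedding) = C.output G := by
    intro G π
    obtain ⟨τ, hτ⟩ := hC π
    unfold Circuit.output
    conv_lhs => rw [← hτ.out_eq]
    apply Circuit.val_aut hτ
    intro e
    apply ind_eq_iff
    induction e using Sym2.ind with
    | _ a b =>
      rw [Sym2.map_mk, SimpleGraph.mem_edgeSet, SimpleGraph.mem_edgeSet, SimpleGraph.map_adj]
      constructor
      · rintro ⟨a', b', h, h1, h2⟩
        have e1 : a' = a := π.injective h1
        have e2 : b' = b := π.injective h2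
        rw [← e1, ← e2]; exact h
      · intro h
        exact ⟨a, b, h, rfl, rfl⟩
  have hall : (Finset.univ.filter (fun π : Perm (Fin n) =>
      C.output (A.map π.toEmbedding) ≠ C.output (B.map π.toEmbedding))) = Finset.univ := by
    rw [Finset.filter_eq_self]
    intro π _
    rw [hinv, hinv]
    exact hne
  rw [hall, Finset.card_univ, Fintype.card_perm, Fintype.card_fin] at h1
  have := Nat.le_of_mul_le_mul_right h1 (Nat.factorial_pos n)
  omega

/-- A symmetric circuit on `n` vertices with `s` gates separating graphs with a `k`-clique from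
graphs without `u`-clique exists. -/
def HasCircuit (n k u s : ℕ) : Prop :=
  ∃ (Γ : Type) (_ : Fintype Γ) (C : Circuit (Fin n) Γ), Fintype.card Γ = s ∧ C.Symmetric ∧
    C.Separates k u

theorem exists_least (k u : ℕ) (hu : 3 ≤ u) (huk : u ≤ k) : ∃ n₀, ∀ n ≥ n₀,
    IsLeast {s | HasCircuit n k u s} (n.choose u + 1) := by
  obtain ⟨n₀, hn₀⟩ := exists_pair k u hu
  refine ⟨n₀, fun n hn => ⟨?_, ?_⟩⟩
  · refine ⟨_, inferInstance, brute (Fin n) u, ?_, brute_symmetric u, brute_separates huk⟩
    rw [card_brute, Fintype.card_fin]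
  · rintro s ⟨Γ, _, C, hs, hC, hsep⟩
    by_contra hc
    push Not at hc
    obtain ⟨A, B, hA, hB, hAB⟩ := hn₀ n hn
    have h1 := hAB Γ C hC (by omega)
    rw [hsep.1 A hA, hsep.2 B hB] at h1
    exact absurd h1 (by simp)

/-- the randomized lower bound -/
theorem random_bound (k u : ℕ) (hu : 3 ≤ u) : ∃ n₀, ∀ n ≥ n₀, ∀ b,
    HasRandomCircuit n k u b → n.choose u ≤ b := by
  classical
  obtain ⟨K, n₀, h⟩ := exists_pair_avg k u hu
  refine ⟨max n₀ (3 * K + 1), fun n hn b hb => ?_⟩
  have hn0 : n₀ ≤ n := (le_max_left _ _).trans hn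
  have hn1 : 3 * K + 1 ≤ n := (le_max_right _ _).trans hn
  by_contra hcb
  push Not at hcb
  obtain ⟨A, B, hA, hB, hAB⟩ := h n hn0
  obtain ⟨ι, _, w, Γ, _, C, hw0, hw1, hsize, hacc, hrej⟩ := hb
  -- every circuit of the family is nearly blind
  have hbl : ∀ i, (n : ℝ) * ((Finset.univ.filter (fun π : Perm (Fin n) =>
      (C i).output (A.map π.toEmbedding) ≠ (C i).output (B.map π.toEmbedding))).card : ℝ) ≤
        K * (n.factorial : ℝ) := by
    intro i
    have h1 := (C i).index_aut_mul
    rw [Fintype.card_fin] at h1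
    have hsym : 0 < (C i).numSym := by
      rcases Nat.eq_zero_or_pos (C i).numSym with h0 | h0
      · rw [h0, mul_zero] at h1
        exact absurd h1.symm (Nat.factorial_pos n).ne'
      · exact h0
    have h2 : max 1 (Fintype.card (Γ i) - 1) * (C i).aut.index ≤ b := by
      have h3 := hsize i
      rw [← h1] at h3
      have : (max 1 (Fintype.card (Γ i) - 1) * (C i).aut.index) * (C i).numSym ≤
          b * (C i).numSym := by
        calc _ = max 1 (Fintype.card (Γ i) - 1) * ((C i).aut.index * (C i).numSym) := by ring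
          _ ≤ _ := h3
      exact Nat.le_of_mul_le_mul_right this hsym
    have h4 : (C i).aut.index < n.choose u :=
      lt_of_le_of_lt ((Nat.le_mul_of_pos_left _
        (lt_of_lt_of_le Nat.one_pos (le_max_left _ _))).trans h2) hcb
    have h5 : (Fintype.card (Γ i) - 1) * (C i).aut.index < n.choose u :=
      lt_of_le_of_lt ((Nat.mul_le_mul_right _ (le_max_right _ _)).trans h2) hcb
    exact_mod_cast hAB (Γ i) (C i) h4 h5
  -- the gap for every relabelling
  have hgap : ∀ π : Perm (Fin n), (1 : ℝ) / 3 ≤ ∑ i, w i *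
      (if (C i).output (A.map π.toEmbedding) ≠ (C i).output (B.map π.toEmbedding)
        then 1 else 0) := by
    intro π
    have h1 := hacc (A.map π.toEmbedding) ((isNClique_map_iff A π).2 hA)
    have h2 := hrej (B.map π.toEmbedding) (fun h => hB ((isNClique_map_iff B π).1 h))
    have h3 : ∑ i, (if (C i).output (A.map π.toEmbedding) = true then w i else 0) -
        ∑ i, (if (C i).output (B.map π.toEmbedding) = true then w i else 0) ≤
        ∑ i, w i * (if (C i).output (A.map π.toEmbedding) ≠ (C i).output (B.map π.toEmbedding)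
          then 1 else 0) := by
      rw [← Finset.sum_sub_distrib]
      apply Finset.sum_le_sum
      intro i _
      have := hw0 i
      cases (C i).output (A.map π.toEmbedding) <;> cases (C i).output (B.map π.toEmbedding) <;>
        simp [this]
    linarith
  -- sum over all relabellings
  have hsum : (n.factorial : ℝ) * (1 / 3) ≤ ∑ i, w i *
      ((Finset.univ.filter (fun π : Perm (Fin n) =>
        (C i).output (A.map π.toEmbedding) ≠ (C i).output (B.map π.toEmbedding))).card : ℝ) := by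
    have h1 : ∑ π : Perm (Fin n), (1 : ℝ) / 3 ≤ ∑ π : Perm (Fin n), ∑ i, w i *
      (if (C i).output (A.map π.toEmbedding) ≠ (C i).output (B.map π.toEmbedding)
        then 1 else 0) := Finset.sum_le_sum (fun π _ => hgap π)
    rw [Finset.sum_const, Finset.card_univ, Fintype.card_perm, Fintype.card_fin,
      nsmul_eq_mul] at h1
    refine h1.trans (le_of_eq ?_)
    rw [Finset.sum_comm]
    apply Finset.sum_congr rfl
    intro i _
    rw [← Finset.mul_sum, Finset.card_filter]
    push_cast
    rfl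
  have hfin : (n : ℝ) * ((n.factorial : ℝ) * (1 / 3)) ≤ K * (n.factorial : ℝ) := by
    calc (n : ℝ) * ((n.factorial : ℝ) * (1 / 3)) ≤ (n : ℝ) * ∑ i, w i *
      ((Finset.univ.filter (fun π : Perm (Fin n) =>
        (C i).output (A.map π.toEmbedding) ≠ (C i).output (B.map π.toEmbedding))).card : ℝ) :=
          mul_le_mul_of_nonneg_left hsum (by positivity)
      _ = ∑ i, w i * ((n : ℝ) * ((Finset.univ.filter (fun π : Perm (Fin n) =>
        (C i).output (A.map π.toEmbedding) ≠
          (C i).output (B.map π.toEmbedding))).card : ℝ)) := by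
          rw [Finset.mul_sum]
          apply Finset.sum_congr rfl
          intro i _
          ring
      _ ≤ ∑ i, w i * (K * (n.factorial : ℝ)) :=
          Finset.sum_le_sum (fun i _ => mul_le_mul_of_nonneg_left (hbl i) (hw0 i))
      _ = K * (n.factorial : ℝ) := by rw [← Finset.sum_mul, hw1, one_mul]
  have hfpos : (0 : ℝ) < n.factorial := by exact_mod_cast Nat.factorial_pos n
  have h6 : ((n : ℝ) / 3) * (n.factorial : ℝ) ≤ K * (n.factorial : ℝ) := by
    calc ((n : ℝ) / 3) * (n.factorial : ℝ) = (n : ℝ) * ((n.factorial : ℝ) * (1 / 3)) := by ring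
      _ ≤ _ := hfin
  have h7 : (n : ℝ) / 3 ≤ K := le_of_mul_le_mul_right h6 hfpos
  have h8 : (3 * (K : ℝ) + 1) ≤ n := by exact_mod_cast hn1
  linarith

lemma Circuit.numSym_eq {n : ℕ} {Γ : Type} [Fintype Γ] {C : Circuit (Fin n) Γ}
    (hC : C.Symmetric) : C.numSym = n.factorial := by
  have h := C.index_aut_mul
  rw [Circuit.aut_eq_top hC, Subgroup.index_top, one_mul, Fintype.card_fin] at h
  exact h

/-- exhaustive search -/
theorem random_upper {n k u : ℕ} (huk : u ≤ k) (hn : u ≤ n) :
    HasRandomCircuit n k u (n.choose u) := by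
  classical
  have hsep := brute_separates (V := Fin n) huk
  refine ⟨Unit, inferInstance, fun _ => 1, fun _ => Option {S : Finset (Fin n) // S.card = u},
    fun _ => inferInstance, fun _ => brute (Fin n) u, fun _ => zero_le_one, by simp, ?_, ?_, ?_⟩
  · intro _
    have h1 : Fintype.card (Option {S : Finset (Fin n) // S.card = u}) = n.choose u + 1 := by
      rw [card_brute, Fintype.card_fin]
    rw [h1, Circuit.numSym_eq (brute_symmetric u)]
    have h2 : 0 < n.choose u := Nat.choose_pos hn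
    have h3 : max 1 (n.choose u + 1 - 1) = n.choose u := by omega
    rw [h3]
  · intro G hG
    rw [Fintype.sum_unique, if_pos (hsep.1 G hG)]
    norm_num
  · intro G hG
    rw [Fintype.sum_unique, if_neg (by rw [hsep.2 G hG]; simp)]
    norm_num

/-- The least `size * asymmetry` of randomized circuits separating `k`-cliques from `u`-cliques
is `C(n, u)`. -/
theorem random_least (k u : ℕ) (hu : 3 ≤ u) (huk : u ≤ k) : ∃ n₀, ∀ n ≥ n₀,
    IsLeast {b | HasRandomCircuit n k u b} (n.choose u) := by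
  obtain ⟨n₀, hn₀⟩ := random_bound k u hu
  refine ⟨max n₀ u, fun n hn => ⟨random_upper huk ((le_max_right _ _).trans hn), ?_⟩⟩
  intro b hb
  exact hn₀ n ((le_max_left _ _).trans hn) b hb

/-- growth of the binomial coefficient -/
lemma eventually_lt_choose (u : ℕ) (M γ : ℝ) (hγ : γ < u) :
    ∀ᶠ n : ℕ in Filter.atTop, M * (n : ℝ) ^ γ < (n.choose u : ℝ) := by
  have h1 : Filter.Tendsto (fun x : ℝ => x ^ ((u : ℝ) - γ)) Filter.atTop Filter.atTop :=
    tendsto_rpow_atTop (by linarith)
  have h2 : Filter.Tendsto (fun n : ℕ => (n : ℝ) ^ ((u : ℝ) - γ)) Filter.atTop Filter.atTop :=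
    h1.comp tendsto_natCast_atTop_atTop
  have h3 := h2.eventually_gt_atTop (M * (2 ^ u * (u.factorial : ℝ)))
  filter_upwards [h3, Filter.eventually_ge_atTop (2 * u + 1)] with n hn1 hn2
  have hnpos : (0 : ℝ) < n := by
    have : 0 < n := by omega
    exact_mod_cast this
  have h4 : ((n + 1 - u : ℕ) : ℝ) ^ u ≤ (u.factorial : ℝ) * (n.choose u : ℝ) := by
    exact_mod_cast Nat.pow_sub_le_descFactorial n u |>.trans_eq
      (Nat.descFactorial_eq_factorial_mul_choose n u)
  have h5 : (n : ℝ) / 2 ≤ ((n + 1 - u : ℕ) : ℝ) := by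
    have : n ≤ 2 * (n + 1 - u) := by omega
    have : (n : ℝ) ≤ 2 * ((n + 1 - u : ℕ) : ℝ) := by exact_mod_cast this
    linarith
  have h6 : ((n : ℝ) / 2) ^ u ≤ (u.factorial : ℝ) * (n.choose u : ℝ) :=
    (pow_le_pow_left₀ (by positivity) h5 u).trans h4
  have h7 : (n : ℝ) ^ u = (n : ℝ) ^ ((u : ℝ) - γ) * (n : ℝ) ^ γ := by
    rw [← Real.rpow_add hnpos, sub_add_cancel, Real.rpow_natCast]
  have hgpos : (0 : ℝ) < (n : ℝ) ^ γ := Real.rpow_pos_of_pos hnpos _
  have h8 : M * (2 ^ u * (u.factorial : ℝ)) * (n : ℝ) ^ γ < (n : ℝ) ^ u := by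
    rw [h7]
    exact mul_lt_mul_of_pos_right hn1 hgpos
  have h9 : (n : ℝ) ^ u ≤ 2 ^ u * ((u.factorial : ℝ) * (n.choose u : ℝ)) := by
    have : (n : ℝ) ^ u = 2 ^ u * ((n : ℝ) / 2) ^ u := by
      rw [div_pow]; field_simp
    rw [this]
    exact mul_le_mul_of_nonneg_left h6 (by positivity)
  have h10 : (M * (n : ℝ) ^ γ) * (2 ^ u * (u.factorial : ℝ)) <
      (n.choose u : ℝ) * (2 ^ u * (u.factorial : ℝ)) := by
    calc (M * (n : ℝ) ^ γ) * (2 ^ u * (u.factorial : ℝ)) =
          M * (2 ^ u * (u.factorial : ℝ)) * (n : ℝ) ^ γ := by ring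
      _ < (n : ℝ) ^ u := h8
      _ ≤ 2 ^ u * ((u.factorial : ℝ) * (n.choose u : ℝ)) := h9
      _ = _ := by ring
  exact lt_of_mul_lt_mul_right h10 (by positivity)

/-- No family of such circuits with `size * n! / symmetries ≤ f(k) n^{g(k)}`, `g(k) = o(u(k))`,
separates `k`-cliques from `u(k)`-cliques, even with randomization. -/
theorem no_family (u : ℕ → ℕ)
    (hu' : Filter.Tendsto u Filter.atTop Filter.atTop)
    (f g : ℕ → ℝ) (hg : Filter.Tendsto (fun k => g k / u k) Filter.atTop (nhds 0)) :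
    ∃ k₀, ∀ k ≥ k₀, ∃ n₀, ∀ n ≥ n₀, ∀ b : ℕ, HasRandomCircuit n k (u k) b →
      f k * (n : ℝ) ^ (g k) < b := by
  have h1 : ∀ᶠ k in Filter.atTop, g k / u k < 1 :=
    hg.eventually (gt_mem_nhds (by norm_num))
  have h2 := hu'.eventually_ge_atTop 3
  obtain ⟨k₀, hk₀⟩ := Filter.eventually_atTop.1 (h1.and h2)
  refine ⟨k₀, fun k hk => ?_⟩
  obtain ⟨hk1, hk2⟩ := hk₀ k hk
  have hpos : (0 : ℝ) < u k := by
    have : 0 < u k := by omega
    exact_mod_cast this
  have hk3 : g k < u k := by
    rwa [div_lt_one hpos] at hk1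
  obtain ⟨n₀, hn₀⟩ := random_bound k (u k) hk2
  obtain ⟨n₁, hn₁⟩ := Filter.eventually_atTop.1 (eventually_lt_choose (u k) (f k) (g k) hk3)
  refine ⟨max n₀ n₁, fun n hn b hb => ?_⟩
  have h3 := hn₀ n ((le_max_left _ _).trans hn) b hb
  have h4 := hn₁ n ((le_max_right _ _).trans hn)
  have h5 : ((n.choose (u k) : ℕ) : ℝ) ≤ b := by exact_mod_cast h3
  linarith

end Pool.Agent.SymCirc
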